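import Mathlib

/-!
# Small divisors: no long chains of separated resonances
-/

namespace Pool.Agent.Q67.BC

open Finset Real

variable {d : ℕ}

/-- the frequency of `k` -/
noncomputable def th (α : Fin d → ℝ) (k : Fin d → ℤ) : ℝ := ∑ i, k i * α i

/-- the size `sin² (π k·α)` -/
noncomputable def ss (α : Fin d → ℝ) (k : Fin d → ℤ) : ℝ := sin (π * th α k) ^ 2

/-- the signed distance to the nearest integer -/
noncomputable def eta (α : Fin d → ℝ) (k : Fin d → ℤ) : ℝ := th α k - round (th α k)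

lemma ss_eq (α : Fin d → ℝ) (k : Fin d → ℤ) : ss α k = sin (π * eta α k) ^ 2 := by
  unfold ss eta
  rw [sin_sq_eq_half_sub, sin_sq_eq_half_sub]
  congr 2
  have : 2 * (π * (th α k - round (th α k))) = 2 * (π * th α k) - (round (th α k)) * (2 * π) := by
    ring
  rw [this, cos_sub_int_mul_two_pi]

lemma abs_eta_le (α : Fin d → ℝ) (k : Fin d → ℤ) : |eta α k| ≤ 1/2 := abs_sub_round _

lemma ss_upper (α : Fin d → ℝ) (k : Fin d → ℤ) : ss α k ≤ π^2 * eta α k ^2 := by
  rw [ss_eq, ← mul_pow]; exact sin_sq_le_sq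

lemma ss_lower (α : Fin d → ℝ) (k : Fin d → ℤ) : 4 * eta α k ^2 ≤ ss α k := by
  have h1 := abs_eta_le α k
  have h2 : |π * eta α k| ≤ π / 2 := by
    rw [abs_mul, abs_of_pos pi_pos]
    have := mul_le_mul_of_nonneg_left h1 pi_pos.le
    linarith
  have h3 := mul_abs_le_abs_sin h2
  rw [abs_mul, abs_of_pos pi_pos] at h3
  have h4 : 2 / π * (π * |eta α k|) = 2 * |eta α k| := by field_simp
  rw [h4] at h3
  rw [ss_eq, ← sq_abs (sin _), ← sq_abs (eta α k)]
  have : 0 ≤ |eta α k| := abs_nonneg _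
  nlinarith

/-- the parameter `A` of the relations -/
def AA (d K : ℕ) : ℕ := (2 * (d+1) * K)^d

/-- the separation -/
def TT (d K : ℕ) : ℕ := 4 * ((d+1) * AA d K)^2

lemma AA_pos {d K : ℕ} (hK : 1 ≤ K) : 1 ≤ AA d K := Nat.one_le_pow _ _ (by positivity)

lemma TT_ge {d K : ℕ} (hK : 1 ≤ K) : 4 ≤ TT d K := by
  unfold TT
  have h1 := AA_pos (d := d) hK
  have h2 : 1 ≤ ((d+1) * AA d K)^2 := Nat.one_le_pow _ _ (by positivity)
  omega

/-- a small integer relation between `d+1` integer vectors of dimension `d` -/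
lemma relation {K : ℕ} (hK : 1 ≤ K) (k : Fin (d+1) → (Fin d → ℤ)) (hk : ∀ j i, |k j i| ≤ K) :
    ∃ a : Fin (d+1) → ℤ, a ≠ 0 ∧ (∀ j, |a j| ≤ AA d K) ∧ ∀ i, ∑ j, a j * k j i = 0 := by
  classical
  set A := AA d K with hA
  set Bd : ℤ := (d+1) * A * K with hBd
  let f : (Fin (d+1) → Fin (A+1)) → (Fin d → ℤ) := fun a i => ∑ j, ((a j : ℕ) : ℤ) * k j i
  have hmap : ∀ a ∈ (Finset.univ : Finset (Fin (d+1) → Fin (A+1))),
      f a ∈ Fintype.piFinset (fun _ : Fin d => Finset.Icc (-Bd) Bd) := by
    intro a _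
    rw [Fintype.mem_piFinset]
    intro i
    rw [Finset.mem_Icc, ← abs_le]
    calc |∑ j, ((a j : ℕ) : ℤ) * k j i| ≤ ∑ j, |((a j : ℕ) : ℤ) * k j i| :=
          Finset.abs_sum_le_sum_abs _ _
      _ ≤ ∑ _j : Fin (d+1), (A:ℤ) * K := by
          refine Finset.sum_le_sum (fun j _ => ?_)
          rw [abs_mul]
          have h1 : |((a j : ℕ) : ℤ)| ≤ A := by
            rw [abs_of_nonneg (by positivity)]
            have := (a j).2
            omega
          exact mul_le_mul h1 (hk j i) (abs_nonneg _) (by positivity)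
      _ = Bd := by
          rw [Finset.sum_const, Finset.card_univ, Fintype.card_fin, hBd]; simp; ring
  have hcard : (Fintype.piFinset (fun _ : Fin d => Finset.Icc (-Bd) Bd)).card <
      (Finset.univ : Finset (Fin (d+1) → Fin (A+1))).card := by
    rw [Fintype.card_piFinset, Finset.card_univ, Fintype.card_fun, Fintype.card_fin,
      Fintype.card_fin]
    simp only [Int.card_Icc, Finset.prod_const, Finset.card_univ, Fintype.card_fin]
    have h1 : (Bd + 1 - -Bd).toNat = 2 * ((d+1) * A * K) + 1 := by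
      have : Bd = (((d+1) * A * K : ℕ) : ℤ) := by rw [hBd]; push_cast; ring
      rw [this]; omega
    rw [h1]
    calc (2 * ((d+1) * A * K) + 1)^d ≤ (2 * (d+1) * K * (A+1))^d := by
          apply Nat.pow_le_pow_left
          have : 1 ≤ 2 * (d+1) * K := by nlinarith
          nlinarith
      _ = A * (A+1)^d := by rw [mul_pow, hA]; rfl
      _ < (A+1) * (A+1)^d := Nat.mul_lt_mul_of_pos_right (Nat.lt_succ_self A) (by positivity)
      _ = (A+1)^(d+1) := by ring
  obtain ⟨x, _, y, _, hxy, hf⟩ := Finset.exists_ne_map_eq_of_card_lt_of_maps_to hcard hmap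
  refine ⟨fun j => ((x j : ℕ) : ℤ) - ((y j : ℕ) : ℤ), ?_, ?_, ?_⟩
  · intro h
    apply hxy
    ext j
    have := congrFun h j
    simp only [Pi.zero_apply] at this
    omega
  · intro j
    have h1 := (x j).2
    have h2 := (y j).2
    show |((x j : ℕ) : ℤ) - ((y j : ℕ) : ℤ)| ≤ _
    rw [abs_le]
    constructor <;> omega
  · intro i
    have := congrFun hf i
    simp only [f] at this
    simp only [sub_mul, Finset.sum_sub_distrib]
    rw [this, sub_self]

/-- **no long separated chains** -/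
lemma no_chain (α : Fin d → ℝ) (hirr : ∀ k : Fin d → ℤ, k ≠ 0 → eta α k ≠ 0) {K : ℕ}
    (hK : 1 ≤ K) (k : Fin (d+1) → (Fin d → ℤ)) (hk0 : ∀ j, k j ≠ 0) (hk : ∀ j i, |k j i| ≤ K)
    (hs : ∀ j, (TT d K : ℝ) * ss α (k j) ≤ 1)
    (hsep : ∀ j j', j < j' → (TT d K : ℝ) * ss α (k j') ≤ ss α (k j)) : False := by
  classical
  obtain ⟨a, ha0, haA, hrel⟩ := relation hK k hk
  set R : ℝ := (d+1) * AA d K with hR
  have hA1 : (1:ℝ) ≤ AA d K := by exact_mod_cast AA_pos (d := d) hK
  have hR0 : 0 < R := by positivity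
  have hTT : (TT d K : ℝ) = 4 * R^2 := by rw [hR]; unfold TT; push_cast; ring
  -- sizes of the `eta`
  have he1 : ∀ j, |eta α (k j)| ≤ 1 / (4*R) := by
    intro j
    have h1 := ss_lower α (k j)
    have h2 := hs j
    rw [hTT] at h2
    have h3 : (4 * R * |eta α (k j)|)^2 ≤ 1^2 := by
      rw [mul_pow, sq_abs]
      have : 0 < R^2 := by positivity
      nlinarith
    have h4 := le_of_abs_le (abs_le_of_sq_le_sq h3 (by norm_num))
    rw [le_div_iff₀ (by positivity)]
    linarith
  have hsum : ∑ j, (a j : ℝ) * eta α (k j) = 0 := by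
    -- an integer of absolute value less than one
    have h1 : ∑ j, (a j : ℝ) * eta α (k j) =
        ((-(∑ j, a j * round (th α (k j))) : ℤ) : ℝ) := by
      unfold eta
      simp only [mul_sub, Finset.sum_sub_distrib]
      have h2 : ∑ j, (a j : ℝ) * th α (k j) = 0 := by
        unfold th
        simp only [Finset.mul_sum]
        rw [Finset.sum_comm]
        apply Finset.sum_eq_zero
        intro i _
        have h3 : ∑ j, (a j : ℝ) * ((k j i : ℝ) * α i) = ((∑ j, a j * k j i : ℤ) : ℝ) * α i := by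
          push_cast
          rw [Finset.sum_mul]
          refine Finset.sum_congr rfl (fun j _ => by ring)
        rw [h3, hrel i]; simp
      rw [h2]; push_cast; ring
    have h2 : |∑ j, (a j : ℝ) * eta α (k j)| < 1 := by
      calc |∑ j, (a j : ℝ) * eta α (k j)| ≤ ∑ j, |(a j : ℝ) * eta α (k j)| :=
            Finset.abs_sum_le_sum_abs _ _
        _ ≤ ∑ _j : Fin (d+1), (AA d K : ℝ) * (1 / (4*R)) := by
            refine Finset.sum_le_sum (fun j _ => ?_)
            rw [abs_mul]
            have h3 : |(a j : ℝ)| ≤ AA d K := by exact_mod_cast haA j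
            exact mul_le_mul h3 (he1 j) (abs_nonneg _) (by positivity)
        _ = 1/4 := by
            rw [Finset.sum_const, Finset.card_univ, Fintype.card_fin, nsmul_eq_mul]
            push_cast
            rw [hR]; field_simp
        _ < 1 := by norm_num
    rw [h1] at h2 ⊢
    have h3 : |(-(∑ j, a j * round (th α (k j))) : ℤ)| < 1 := by exact_mod_cast h2
    rw [Int.abs_lt_one_iff] at h3
    rw [h3]; simp
  -- the first index with a nonzero coefficient
  have hne : (Finset.univ.filter (fun j => a j ≠ 0)).Nonempty := by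
    by_contra h
    rw [Finset.not_nonempty_iff_eq_empty, Finset.filter_eq_empty_iff] at h
    apply ha0
    ext j
    have := h (Finset.mem_univ j)
    push Not at this
    simpa using this
  set j0 := (Finset.univ.filter (fun j => a j ≠ 0)).min' hne with hj0
  have hj0mem : a j0 ≠ 0 := (Finset.mem_filter.1 (Finset.min'_mem _ hne)).2
  have hj0min : ∀ j, j < j0 → a j = 0 := by
    intro j hj
    by_contra h
    have := Finset.min'_le (Finset.univ.filter (fun j => a j ≠ 0)) j (by simp [h])
    exact absurd hj (not_lt.2 this)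
  have hrest : ∀ j, j0 < j → 4 * R * |eta α (k j)| ≤ π * |eta α (k j0)| := by
    intro j hj
    have h1 := ss_lower α (k j)
    have h2 := ss_upper α (k j0)
    have h3 := hsep j0 j hj
    rw [hTT] at h3
    have h4 : (4 * R * |eta α (k j)|)^2 ≤ (π * |eta α (k j0)|)^2 := by
      have e1 : (4 * R * |eta α (k j)|)^2 = 16 * R^2 * eta α (k j)^2 := by
        rw [mul_pow, mul_pow, sq_abs]; norm_num
      have e2 : (π * |eta α (k j0)|)^2 = π^2 * eta α (k j0)^2 := by rw [mul_pow, sq_abs]
      rw [e1, e2]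
      have h6 : 4 * R^2 * (4 * eta α (k j)^2) ≤ 4 * R^2 * ss α (k j) :=
        mul_le_mul_of_nonneg_left h1 (by positivity)
      linarith
    exact le_of_abs_le (abs_le_of_sq_le_sq h4 (by positivity))
  have hsplit : (a j0 : ℝ) * eta α (k j0) = - ∑ j ∈ Finset.univ.erase j0, (a j : ℝ) * eta α (k j) := by
    have := Finset.add_sum_erase Finset.univ (fun j => (a j : ℝ) * eta α (k j)) (Finset.mem_univ j0)
    linarith
  have hη : eta α (k j0) ≠ 0 := hirr _ (hk0 j0)
  have hηpos : 0 < |eta α (k j0)| := abs_pos.2 hη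
  have h1 : |(a j0 : ℝ) * eta α (k j0)| ≤ ∑ j ∈ Finset.univ.erase j0,
      (AA d K : ℝ) * (π * |eta α (k j0)| / (4*R)) := by
    rw [hsplit, abs_neg]
    refine (Finset.abs_sum_le_sum_abs _ _).trans (Finset.sum_le_sum (fun j hj => ?_))
    rw [Finset.mem_erase] at hj
    rcases lt_or_gt_of_ne hj.1 with h | h
    · rw [hj0min j h]; simp; positivity
    · rw [abs_mul]
      have h3 : |(a j : ℝ)| ≤ AA d K := by exact_mod_cast haA j
      refine mul_le_mul h3 ?_ (abs_nonneg _) (by positivity)
      rw [le_div_iff₀ (by positivity)]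
      have := hrest j h
      linarith
  rw [Finset.sum_const, Finset.card_erase_of_mem (Finset.mem_univ _), Finset.card_univ,
    Fintype.card_fin, nsmul_eq_mul, abs_mul] at h1
  have h2 : (1:ℝ) ≤ |(a j0 : ℝ)| := by exact_mod_cast Int.one_le_abs hj0mem
  have h3 : ((d + 1 - 1 : ℕ) : ℝ) * ((AA d K : ℝ) * (π * |eta α (k j0)| / (4*R))) ≤
      R * (π * |eta α (k j0)| / (4*R)) := by
    rw [← mul_assoc]
    apply mul_le_mul_of_nonneg_right _ (by positivity)
    rw [hR]
    apply mul_le_mul_of_nonneg_right _ (by positivity)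
    push_cast; simp
  have h4 : R * (π * |eta α (k j0)| / (4*R)) = π / 4 * |eta α (k j0)| := by field_simp
  have h5 : π < 4 := pi_lt_four
  nlinarith

end Pool.Agent.Q67.BC
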