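import Pool.Agent.Q67.BC.Four

/-!
# Birkhoff sums: no discrete orbit for zero mean, all orbits discrete for nonzero mean
-/

noncomputable section

namespace Pool.Agent.Q67.BC

open Finset Filter Topology UnitAddTorus
open scoped ContDiff

variable {d : ℕ}

lemma sum_int : Summable (fun n : ℤ => ((1 + |(n:ℝ)|)^2)⁻¹) := by
  have h1 : Summable (fun n : ℤ => 1 / (n:ℝ)^2) := Real.summable_one_div_int_pow.2 (by norm_num)
  have h2 : Summable (fun n : ℤ => if n = 0 then (1:ℝ) else 0) :=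
    (hasSum_ite_eq (0:ℤ) (1:ℝ)).summable
  refine Summable.of_nonneg_of_le (fun n => by positivity) (fun n => ?_) (h1.add h2)
  by_cases h : n = 0
  · subst h; simp
  · have hn : 0 < |(n:ℝ)| := abs_pos.2 (by exact_mod_cast h)
    rw [if_neg h, add_zero, ← sq_abs (n:ℝ), ← one_div]
    apply div_le_div_of_nonneg_left (by norm_num) (by positivity)
    nlinarith

lemma sum_prod : ∀ d : ℕ, Summable (fun k : Fin d → ℤ => ∏ i, ((1 + |(k i:ℝ)|)^2)⁻¹) := by
  intro d
  induction d with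
  | zero => exact (hasSum_fintype _).summable
  | succ d ih =>
    rw [← (Fin.consEquiv (fun _ => ℤ)).summable_iff]
    have h := sum_int.mul_of_nonneg ih (fun n => by positivity) (fun k => by positivity)
    refine h.congr (fun x => ?_)
    simp [Fin.consEquiv, Fin.prod_univ_succ, mul_comm]

lemma sum_norm (d : ℕ) : Summable (fun k : Fin d → ℤ => ((1 + ‖k‖)^(2*d))⁻¹) := by
  refine Summable.of_nonneg_of_le (fun k => by positivity) (fun k => ?_) (sum_prod d)
  rw [Finset.prod_inv_distrib]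
  apply inv_anti₀ (by positivity)
  calc ∏ i, (1 + |(k i : ℝ)|)^2 ≤ ∏ _i : Fin d, (1 + ‖k‖)^2 := by
        refine Finset.prod_le_prod (fun i _ => by positivity) (fun i _ => ?_)
        have := norm_le_pi_norm k i
        rw [Int.norm_eq_abs] at this
        exact pow_le_pow_left₀ (by positivity) (by linarith) 2
    _ = (1 + ‖k‖)^(2*d) := by
        rw [Finset.prod_const, Finset.card_univ, Fintype.card_fin, ← pow_mul]

/-- summability of the Fourier coefficients against every power -/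
theorem coeff_summable {f : UnitAddTorus (Fin d) → ℂ} (hf : ContDiff ℝ ∞ (fun x => f (pr x)))
    (hfc : Continuous f) (N : ℕ) : Summable (fun k => ‖mFourierCoeff f k‖ * ‖k‖^N) := by
  obtain ⟨C0, hC0, h0⟩ := coeff_decay hf hfc 0
  obtain ⟨C1, hC1, h1⟩ := coeff_decay hf hfc (N + 2*d)
  refine Summable.of_nonneg_of_le (fun k => by positivity) (fun k => ?_)
    ((sum_norm d).mul_left (2^(N+2*d) * (C0 + C1)))
  have hk : 0 ≤ ‖k‖ := norm_nonneg k
  have e1 : ‖mFourierCoeff f k‖ * (1 + ‖k‖)^(N+2*d) ≤ 2^(N+2*d) * (C0 + C1) := by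
    have h2 : (1 + ‖k‖)^(N+2*d) ≤ 2^(N+2*d) * (1 + ‖k‖^(N+2*d)) := by
      rcases le_total ‖k‖ 1 with h | h
      · calc (1 + ‖k‖)^(N+2*d) ≤ 2^(N+2*d) := pow_le_pow_left₀ (by positivity) (by linarith) _
          _ ≤ 2^(N+2*d) * (1 + ‖k‖^(N+2*d)) := by
            have : 0 ≤ ‖k‖^(N+2*d) := by positivity
            have : (0:ℝ) < 2^(N+2*d) := by positivity
            nlinarith
      · calc (1 + ‖k‖)^(N+2*d) ≤ (2 * ‖k‖)^(N+2*d) :=
              pow_le_pow_left₀ (by positivity) (by linarith) _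
          _ = 2^(N+2*d) * ‖k‖^(N+2*d) := mul_pow _ _ _
          _ ≤ _ := by
            have : (0:ℝ) < 2^(N+2*d) := by positivity
            nlinarith
    have h3 := h0 k
    rw [pow_zero, mul_one] at h3
    calc ‖mFourierCoeff f k‖ * (1 + ‖k‖)^(N+2*d)
        ≤ ‖mFourierCoeff f k‖ * (2^(N+2*d) * (1 + ‖k‖^(N+2*d))) :=
          mul_le_mul_of_nonneg_left h2 (norm_nonneg _)
      _ = 2^(N+2*d) * (‖mFourierCoeff f k‖ + ‖mFourierCoeff f k‖ * ‖k‖^(N+2*d)) := by ring
      _ ≤ 2^(N+2*d) * (C0 + C1) := by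
          apply mul_le_mul_of_nonneg_left _ (by positivity)
          linarith [h1 k]
  calc ‖mFourierCoeff f k‖ * ‖k‖^N ≤ ‖mFourierCoeff f k‖ * (1 + ‖k‖)^N := by
        apply mul_le_mul_of_nonneg_left _ (norm_nonneg _)
        exact pow_le_pow_left₀ hk (by linarith) N
    _ = (‖mFourierCoeff f k‖ * (1 + ‖k‖)^(N+2*d)) * ((1 + ‖k‖)^(2*d))⁻¹ := by
        rw [pow_add]; field_simp
    _ ≤ _ := mul_le_mul_of_nonneg_right e1 (by positivity)

/-! ### the core statement -/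

lemma cos_form (α : Fin d → ℝ) (k : Fin d → ℤ) :
    (2 + zz α k + (zz α k)⁻¹)/4 = ((1 - ss α k : ℝ) : ℂ) := by
  have h1 : zz α k = Complex.exp (((2 * Real.pi * th α k : ℝ) : ℂ) * Complex.I) := by
    unfold zz; congr 1; push_cast; ring
  rw [h1, ← Complex.exp_neg]
  have h2 : Complex.exp (((2 * Real.pi * th α k : ℝ) : ℂ) * Complex.I) +
      Complex.exp (-(((2 * Real.pi * th α k : ℝ) : ℂ) * Complex.I)) =
      2 * ((Real.cos (2 * Real.pi * th α k) : ℝ) : ℂ) := by
    rw [Complex.ofReal_cos, Complex.cos]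
    ring_nf
  rw [add_assoc, h2]
  unfold ss
  have h3 : Real.cos (2 * Real.pi * th α k) = 1 - 2 * Real.sin (Real.pi * th α k)^2 := by
    rw [show 2 * Real.pi * th α k = 2 * (Real.pi * th α k) by ring, Real.cos_two_mul]
    have := Real.sin_sq_add_cos_sq (Real.pi * th α k)
    linarith
  rw [h3]; push_cast; ring

lemma zz_ne_one {α : Fin d → ℝ} {k : Fin d → ℤ} (h : eta α k ≠ 0) : zz α k ≠ 1 := by
  intro he
  have h1 := zz_sub_one α k
  rw [he, sub_self, norm_zero] at h1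
  have := ss_pos h
  nlinarith

lemma zz_zero (α : Fin d → ℝ) : zz α 0 = 1 := by
  unfold zz th; simp

lemma zz_ne_zero (α : Fin d → ℝ) (k : Fin d → ℤ) : zz α k ≠ 0 := by
  intro h
  have := zz_norm α k
  rw [h, norm_zero] at this
  exact zero_ne_one this

/-- the even sum of a character -/
lemma even_char {z : ℂ} (hz : ‖z‖ = 1) (hz1 : z ≠ 1) (n : ℕ) :
    ‖∑ j ∈ range n, (z^(j:ℤ) - z^(-((j:ℤ)+1)))‖ = ‖z^n - 1‖^2 / ‖z - 1‖ := by
  have hz0 : z ≠ 0 := by intro h; rw [h, norm_zero] at hz; exact zero_ne_one hz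
  have hzs : z - 1 ≠ 0 := sub_ne_zero.2 hz1
  have h1 : ∑ j ∈ range n, (z^(j:ℤ) - z^(-((j:ℤ)+1))) =
      ((z^n - 1) + ((z^n)⁻¹ - 1)) / (z - 1) := by
    rw [eq_div_iff hzs]
    induction n with
    | zero => simp
    | succ n ih =>
      rw [sum_range_succ, add_mul, ih]
      have e : z^(-((n:ℤ)+1)) = (z^n)⁻¹ * z⁻¹ := by
        rw [zpow_neg, zpow_add₀ hz0, zpow_natCast, zpow_one, mul_inv]
      rw [e, zpow_natCast, pow_succ, mul_inv]
      field_simp
      ring
  have h2 : (z^n - 1) + ((z^n)⁻¹ - 1) = (z^n - 1)^2 / z^n := by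
    have : z^n ≠ 0 := pow_ne_zero _ hz0
    field_simp; ring
  rw [h1, h2, norm_div, norm_div, norm_pow, norm_pow, hz, one_pow, div_one]

/-- the setting of the core statements -/
structure Sys (d : ℕ) where
  α : Fin d → ℝ
  hirr : ∀ k : Fin d → ℤ, k ≠ 0 → eta α k ≠ 0
  γ : (Fin d → ℤ) → ℂ
  hγ : ∀ N : ℕ, Summable (fun k => ‖γ k‖ * ‖k‖^N)
  a : ℤ → ℝ
  ha : ∀ n, HasSum (fun k => γ k * zz α k ^ n) ((a n : ℝ) : ℂ)
  S : ℤ → ℝ
  hS : ∀ n, S (n+1) = S n + a n
  hS0 : S 0 = 0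

lemma Sys.sum0 (s : Sys d) : Summable (fun k => ‖s.γ k‖) := by simpa using s.hγ 0

lemma Sys.abound (s : Sys d) (n : ℤ) : |s.a n| ≤ ∑' k, ‖s.γ k‖ := by
  have h1 := s.ha n
  have h2 : ‖((s.a n : ℝ) : ℂ)‖ ≤ ∑' k, ‖s.γ k‖ := by
    rw [← h1.tsum_eq]
    have h3 : ∀ k, ‖s.γ k * zz s.α k ^ n‖ = ‖s.γ k‖ := by
      intro k; rw [norm_mul, norm_zpow, zz_norm, one_zpow, mul_one]
    refine (norm_tsum_le_tsum_norm ?_).trans ?_
    · simpa only [h3] using s.sum0
    · simp only [h3, le_refl]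
  rwa [Complex.norm_real] at h2

/-- symmetric sums -/
def Sys.U (s : Sys d) (n : ℕ) : ℝ := s.S (n+1) - s.S (-n)

lemma Sys.U_eq (s : Sys d) (n : ℕ) :
    s.U n = s.a 0 + ∑ j ∈ range n, (s.a (j+1) + s.a (-(j+1))) := by
  induction n with
  | zero =>
    unfold Sys.U
    have := s.hS 0
    simp at this ⊢
    rw [this, s.hS0]; ring
  | succ n ih =>
    rw [sum_range_succ, ← add_assoc, ← ih]
    unfold Sys.U
    have h1 := s.hS (n+1)
    have h2 := s.hS (-((n:ℤ)+1))
    rw [show -((n:ℤ)+1) + 1 = -(n:ℤ) by ring] at h2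
    push_cast
    rw [h1, h2]
    ring

lemma Sys.spec (s : Sys d) (M : ℕ) :
    hk s.U M = ∑' k, (s.γ k).re * (1 - ss s.α k)^M := by
  rw [hk_eq s.a s.U s.U_eq M]
  have h1 : HasSum (fun k => ∑ i ∈ range (2*M+1), ((Nat.choose (2*M) i : ℂ) / 4^M) *
      (s.γ k * zz s.α k ^ ((i:ℤ) - M)))
      (∑ i ∈ range (2*M+1), ((Nat.choose (2*M) i : ℂ) / 4^M) * ((s.a ((i:ℤ) - M) : ℝ) : ℂ)) :=
    hasSum_sum (fun i _ => (s.ha _).mul_left _)
  have h2 : ∀ k, ∑ i ∈ range (2*M+1), ((Nat.choose (2*M) i : ℂ) / 4^M) *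
      (s.γ k * zz s.α k ^ ((i:ℤ) - M)) = s.γ k * (((1 - ss s.α k)^M : ℝ) : ℂ) := by
    intro k
    have h3 := kernel_char (zz s.α k) (zz_norm _ _) M
    rw [cos_form] at h3
    push_cast at h3 ⊢
    rw [← h3, mul_sum]
    refine sum_congr rfl (fun i _ => by ring)
  simp only [h2] at h1
  have h4 := Complex.hasSum_re h1
  have h5 : ∀ k, (s.γ k * (((1 - ss s.α k)^M : ℝ) : ℂ)).re = (s.γ k).re * (1 - ss s.α k)^M := by
    intro k; rw [Complex.re_mul_ofReal]
  simp only [h5] at h4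
  rw [h4.tsum_eq, Complex.re_sum]
  refine sum_congr rfl (fun i _ => ?_)
  have : ((Nat.choose (2*M) i : ℂ) / 4^M) * ((s.a ((i:ℤ) - M) : ℝ) : ℂ) =
      (((Nat.choose (2*M) i : ℝ) / 4^M * s.a ((i:ℤ) - M) : ℝ) : ℂ) := by push_cast; ring
  rw [this, Complex.ofReal_re]

lemma Sys.V_bound (s : Sys d) (h0 : s.γ 0 = 0) (n : ℕ) :
    |s.S n + s.S (-n)| ≤ ∑' k, ‖s.γ k‖ * wt s.α n k := by
  have e : s.S n + s.S (-n) = ∑ j ∈ range n, (s.a j - s.a (-((j:ℤ)+1))) := by
    induction n with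
    | zero => simp [s.hS0]
    | succ n ih =>
      rw [sum_range_succ, ← ih]
      have h1 := s.hS n
      have h2 := s.hS (-((n:ℤ)+1))
      rw [show -((n:ℤ)+1) + 1 = -(n:ℤ) by ring] at h2
      push_cast
      rw [h1, h2]; ring
  have h1 : HasSum (fun k => ∑ j ∈ range n, (s.γ k * zz s.α k ^ (j:ℤ) -
      s.γ k * zz s.α k ^ (-((j:ℤ)+1)))) (∑ j ∈ range n, (((s.a j : ℝ) : ℂ) -
      ((s.a (-((j:ℤ)+1)) : ℝ) : ℂ))) :=
    hasSum_sum (fun j _ => (s.ha _).sub (s.ha _))
  have h2 : ((s.S n + s.S (-n) : ℝ) : ℂ) = ∑ j ∈ range n, (((s.a j : ℝ) : ℂ) -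
      ((s.a (-((j:ℤ)+1)) : ℝ) : ℂ)) := by rw [e]; push_cast; rfl
  rw [← h2] at h1
  have h3 : ∀ k, ‖∑ j ∈ range n, (s.γ k * zz s.α k ^ (j:ℤ) -
      s.γ k * zz s.α k ^ (-((j:ℤ)+1)))‖ = ‖s.γ k‖ * wt s.α n k := by
    intro k
    by_cases hk : k = 0
    · rw [hk, h0]; simp
    · simp only [← mul_sub]
      rw [← mul_sum, norm_mul, even_char (zz_norm _ _) (zz_ne_one (s.hirr k hk))]
      rfl
  have hsum : Summable (fun k => ‖s.γ k‖ * wt s.α n k) :=
    Summable.of_nonneg_of_le (fun k => mul_nonneg (norm_nonneg _) (wt_nonneg _ _ _))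
      (fun k => mul_le_mul_of_nonneg_left (wt_le s.α n k) (norm_nonneg _)) (s.sum0.mul_right _)
  have h4 : ‖((s.S n + s.S (-n) : ℝ) : ℂ)‖ ≤ ∑' k, ‖s.γ k‖ * wt s.α n k := by
    rw [← h1.tsum_eq]
    refine (norm_tsum_le_tsum_norm ?_).trans ?_
    · simpa only [h3] using hsum
    · simp only [h3, le_refl]
  rwa [Complex.norm_real] at h4

/-- **zero mean: the sums do not tend to infinity** -/
theorem Sys.not_tendsto (s : Sys d) (h0 : s.γ 0 = 0) :
    ¬ Tendsto (fun n : ℤ => |s.S n|) cofinite atTop := by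
  intro ht
  have hall : ∀ C : ℝ, ∃ n₀ : ℕ, ∀ n : ℤ, (n₀:ℤ) ≤ |n| → C < |s.S n| := by
    intro C
    have h1 := ht.eventually_gt_atTop C
    rw [Filter.eventually_cofinite] at h1
    obtain ⟨b, hb⟩ := (h1.image (fun n => |n|)).bddAbove
    refine ⟨(b+1).toNat, fun n hn => ?_⟩
    by_contra hcon
    have := hb ⟨n, hcon, rfl⟩
    simp only at this
    omega
  set B := ∑' k, ‖s.γ k‖ with hB
  have hB0 : 0 ≤ B := tsum_nonneg (fun _ => norm_nonneg _)
  obtain ⟨n₀, hn₀⟩ := hall B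
  have hpos : (∀ n : ℕ, n₀ ≤ n → B < s.S n) ∨ (∀ n : ℕ, n₀ ≤ n → s.S n < -B) := by
    rcases lt_abs.1 (hn₀ n₀ (by simp)) with h | h
    · left
      intro n hn
      induction n, hn using Nat.le_induction with
      | base => exact h
      | succ n hn ih =>
        have h1 := s.hS n
        have h2 := s.abound n
        have h3 := hn₀ ((n:ℤ)+1) (by rw [abs_of_nonneg (by positivity)]; omega)
        push_cast
        rcases lt_abs.1 h3 with h4 | h4
        · exact h4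
        · have := (abs_le.1 h2).1
          linarith
    · right
      intro n hn
      induction n, hn using Nat.le_induction with
      | base => linarith
      | succ n hn ih =>
        have h1 := s.hS n
        have h2 := s.abound n
        have h3 := hn₀ ((n:ℤ)+1) (by rw [abs_of_nonneg (by positivity)]; omega)
        push_cast
        rcases lt_abs.1 h3 with h4 | h4
        · have := (abs_le.1 h2).2
          linarith
        · linarith
  have hneg : (∀ n : ℕ, n₀ ≤ n → B < s.S (-n)) ∨ (∀ n : ℕ, n₀ ≤ n → s.S (-n) < -B) := by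
    rcases lt_abs.1 (hn₀ (-n₀) (by simp)) with h | h
    · left
      intro n hn
      induction n, hn using Nat.le_induction with
      | base => exact h
      | succ n hn ih =>
        have h1 := s.hS (-((n:ℤ)+1))
        rw [show -((n:ℤ)+1) + 1 = -(n:ℤ) by ring] at h1
        have h2 := s.abound (-((n:ℤ)+1))
        have h3 := hn₀ (-((n:ℤ)+1)) (by rw [abs_neg, abs_of_nonneg (by positivity)]; omega)
        push_cast
        rcases lt_abs.1 h3 with h4 | h4
        · exact h4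
        · have := (abs_le.1 h2).2
          linarith
    · right
      intro n hn
      induction n, hn using Nat.le_induction with
      | base => linarith
      | succ n hn ih =>
        have h1 := s.hS (-((n:ℤ)+1))
        rw [show -((n:ℤ)+1) + 1 = -(n:ℤ) by ring] at h1
        have h2 := s.abound (-((n:ℤ)+1))
        have h3 := hn₀ (-((n:ℤ)+1)) (by rw [abs_neg, abs_of_nonneg (by positivity)]; omega)
        push_cast
        rcases lt_abs.1 h3 with h4 | h4
        · have := (abs_le.1 h2).1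
          linarith
        · linarith
  -- the even contradiction
  have heven : (∀ n : ℕ, n₀ ≤ n → |s.S n + s.S (-n)| = |s.S n| + |s.S (-n)|) → False := by
    intro h
    obtain ⟨C, hC⟩ := even_bounded s.hirr (g := fun k => ‖s.γ k‖) (by simp [h0])
      (fun N => by simpa using s.hγ N)
    obtain ⟨n₁, hn₁⟩ := hall C
    obtain ⟨n, hn, hnC⟩ := hC (max n₀ n₁)
    have h1 := s.V_bound h0 n
    rw [h n (le_trans (le_max_left _ _) hn)] at h1
    have h2 := hn₁ n (by rw [abs_of_nonneg (by positivity)]; exact_mod_cast le_trans (le_max_right _ _) hn)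
    have h3 := abs_nonneg (s.S (-n))
    simp only [abs_norm] at hnC
    linarith
  have hg : ∀ N : ℕ, Summable (fun k => |(s.γ k).re| * ‖k‖^N) := by
    intro N
    refine Summable.of_nonneg_of_le (fun k => by positivity) (fun k => ?_) (s.hγ N)
    exact mul_le_mul_of_nonneg_right (Complex.abs_re_le_norm _) (by positivity)
  rcases hpos with hp | hp <;> rcases hneg with hn | hn
  · apply heven
    intro n hnn
    have h1 := hp n hnn
    have h2 := hn n hnn
    rw [abs_of_pos (by linarith), abs_of_pos (by linarith : 0 < s.S n),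
      abs_of_pos (by linarith : 0 < s.S (-n))]
  · -- U → +∞
    refine no_sym_drift s.hirr (g := fun k => (s.γ k).re) (by simp [h0]) hg (U := s.U) ?_ s.spec
    rw [tendsto_atTop]
    intro C
    obtain ⟨n₁, hn₁⟩ := hall C
    rw [eventually_atTop]
    refine ⟨max n₀ n₁, fun n hnn => ?_⟩
    have h1 := hp (n+1) (by omega)
    have h2 := hn n (by omega)
    have h3 := hn₁ ((n:ℤ)+1) (by rw [abs_of_nonneg (by positivity)]; omega)
    push_cast at h1
    rw [abs_of_pos (by linarith)] at h3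
    unfold Sys.U
    linarith
  · -- U → -∞
    refine no_sym_drift s.hirr (g := fun k => -(s.γ k).re) (by simp [h0])
      (fun N => by simpa using hg N) (U := fun n => - s.U n) ?_ ?_
    · rw [tendsto_atTop]
      intro C
      obtain ⟨n₁, hn₁⟩ := hall C
      rw [eventually_atTop]
      refine ⟨max n₀ n₁, fun n hnn => ?_⟩
      have h1 := hp (n+1) (by omega)
      have h2 := hn n (by omega)
      have h3 := hn₁ ((n:ℤ)+1) (by rw [abs_of_nonneg (by positivity)]; omega)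
      push_cast at h1
      rw [abs_of_neg (by linarith)] at h3
      unfold Sys.U
      linarith
    · intro M
      have h1 := s.spec M
      have h2 : hk (fun n => - s.U n) M = - hk s.U M := by
        unfold hk
        rw [← Finset.sum_neg_distrib]
        refine sum_congr rfl (fun n _ => by ring)
      rw [h2, h1, ← tsum_neg]
      congr 1; ext k; ring
  · apply heven
    intro n hnn
    have h1 := hp n hnn
    have h2 := hn n hnn
    rw [abs_of_neg (by linarith), abs_of_neg (by linarith : s.S n < 0),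
      abs_of_neg (by linarith : s.S (-n) < 0)]
    ring

/-! ### nonzero mean -/

lemma avg_tendsto {z : ℂ} (hz : ‖z‖ = 1) (hz1 : z ≠ 1) :
    Tendsto (fun n : ℕ => (1 / (n:ℂ)) * ∑ j ∈ range n, z^j) atTop (𝓝 0) := by
  have hzs : z - 1 ≠ 0 := sub_ne_zero.2 hz1
  have hpos : 0 < ‖z - 1‖ := norm_pos_iff.2 hzs
  have h1 : Tendsto (fun n : ℕ => (2 / ‖z - 1‖) * (1 / (n:ℝ))) atTop (𝓝 0) := by
    have := tendsto_one_div_atTop_nhds_zero_nat (𝕜 := ℝ)
    simpa using this.const_mul (2 / ‖z - 1‖)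
  refine squeeze_zero_norm (fun n => ?_) h1
  rw [geom_sum_eq hz1, norm_mul, norm_div, norm_div, norm_one, Complex.norm_natCast]
  have h2 := norm_pow_sub_one_le_two z hz n
  calc 1 / (n:ℝ) * (‖z^n - 1‖ / ‖z - 1‖) ≤ 1 / (n:ℝ) * (2 / ‖z - 1‖) := by
        apply mul_le_mul_of_nonneg_left _ (by positivity)
        exact div_le_div_of_nonneg_right h2 hpos.le
    _ = _ := by ring

lemma avg_norm {z : ℂ} (hz : ‖z‖ = 1) (n : ℕ) : ‖(1 / (n:ℂ)) * ∑ j ∈ range n, z^j‖ ≤ 1 := by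
  have h1 : ‖∑ j ∈ range n, z^j‖ ≤ n := by
    calc ‖∑ j ∈ range n, z^j‖ ≤ ∑ j ∈ range n, ‖z^j‖ := norm_sum_le _ _
      _ = n := by simp [hz]
  rw [norm_mul, norm_div, norm_one, Complex.norm_natCast]
  rcases Nat.eq_zero_or_pos n with h | h
  · subst h; simp
  · have : (0:ℝ) < n := by exact_mod_cast h
    rw [div_mul_eq_mul_div, div_le_one this, one_mul]; exact h1

/-- Tannery for the averages -/
lemma tannery {δ : (Fin d → ℤ) → ℂ} (hδ : Summable (fun k => ‖δ k‖)) {w : (Fin d → ℤ) → ℂ}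
    (hw : ∀ k, ‖w k‖ = 1) (hw0 : w 0 = 1) (hw1 : ∀ k, k ≠ 0 → w k ≠ 1) :
    Tendsto (fun n : ℕ => ∑' k, δ k * ((1 / (n:ℂ)) * ∑ j ∈ range n, w k^j)) atTop (𝓝 (δ 0)) := by
  have h := tendsto_tsum_of_dominated_convergence (𝓕 := atTop)
    (f := fun (n : ℕ) k => δ k * ((1 / (n:ℂ)) * ∑ j ∈ range n, w k^j))
    (g := fun k => if k = 0 then δ 0 else 0) (bound := fun k => ‖δ k‖) hδ ?_ ?_
  · rw [tsum_ite_eq] at h; exact h
  · intro k
    by_cases hk : k = 0
    · subst hk
      rw [if_pos rfl]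
      have : ∀ᶠ n : ℕ in atTop, δ 0 * ((1 / (n:ℂ)) * ∑ j ∈ range n, w 0^j) = δ 0 := by
        filter_upwards [eventually_gt_atTop 0] with n hn
        rw [hw0]
        have : (n:ℂ) ≠ 0 := by exact_mod_cast hn.ne'
        simp [this]
      exact tendsto_const_nhds.congr' (this.mono (fun n hn => hn.symm))
    · rw [if_neg hk]
      have := (avg_tendsto (hw k) (hw1 k hk)).const_mul (δ k)
      rwa [mul_zero] at this
  · refine Eventually.of_forall (fun n k => ?_)
    rw [norm_mul]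
    exact mul_le_of_le_one_right (norm_nonneg _) (avg_norm (hw k) n)

/-- **nonzero mean: all sums tend to infinity** -/
theorem Sys.tendsto (s : Sys d) (h0 : s.γ 0 ≠ 0) :
    Tendsto (fun n : ℤ => |s.S n|) cofinite atTop := by
  have hp : ∃ n₀ : ℕ, ∀ n : ℕ, n₀ ≤ n → ‖s.γ 0‖ / 2 * n ≤ |s.S n| := by
    have h1 := tannery s.sum0 (w := zz s.α) (zz_norm s.α) (zz_zero _)
      (fun k hk => zz_ne_one (s.hirr k hk))
    have h2 := (h1.norm.eventually (lt_mem_nhds (half_lt_self (norm_pos_iff.2 h0)))).and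
      (eventually_gt_atTop 0)
    obtain ⟨n₀, hn₀⟩ := eventually_atTop.1 h2
    refine ⟨n₀, fun n hn => ?_⟩
    obtain ⟨h3, h4⟩ := hn₀ n hn
    have hnr : (0:ℝ) < n := by exact_mod_cast h4
    have e : ∑' k, s.γ k * ((1 / (n:ℂ)) * ∑ j ∈ range n, zz s.α k^j) =
        ((1 / (n:ℝ) * s.S n : ℝ) : ℂ) := by
      have h50 : HasSum (fun k => ∑ j ∈ range n, s.γ k * zz s.α k^(j:ℤ))
          (∑ j ∈ range n, ((s.a j : ℝ) : ℂ)) := hasSum_sum (fun j _ => s.ha j)
      have h5 : HasSum (fun k => (1 / (n:ℂ)) * ∑ j ∈ range n, s.γ k * zz s.α k^(j:ℤ))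
          ((1 / (n:ℂ)) * ∑ j ∈ range n, ((s.a j : ℝ) : ℂ)) := h50.mul_left (1 / (n:ℂ))
      have h6 : s.S n = ∑ j ∈ range n, s.a j := by
        clear h3 h4 h5 h50 hnr
        clear hn
        induction n with
        | zero => simp [s.hS0]
        | succ n ih => rw [sum_range_succ, ← ih]; exact_mod_cast s.hS n
      rw [h6]; push_cast
      rw [← h5.tsum_eq]
      congr 1; ext k
      rw [← mul_sum]
      simp only [zpow_natCast]
      ring
    rw [e, Complex.norm_real, Real.norm_eq_abs, abs_mul, abs_of_pos (by positivity : 0 < 1/(n:ℝ))] at h3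
    have : ‖s.γ 0‖ / 2 * n < (1 / (n:ℝ) * |s.S n|) * n := mul_lt_mul_of_pos_right h3 hnr
    have e2 : (1 / (n:ℝ) * |s.S n|) * n = |s.S n| := by field_simp
    linarith
  have hn : ∃ n₀ : ℕ, ∀ n : ℕ, n₀ ≤ n → ‖s.γ 0‖ / 2 * n ≤ |s.S (-n)| := by
    have hnorm : ∀ k, ‖s.γ k * (zz s.α k)⁻¹‖ = ‖s.γ k‖ := by
      intro k; rw [norm_mul, norm_inv, zz_norm, inv_one, mul_one]
    have hzz0 : zz s.α 0 = 1 := zz_zero _
    have h1 := tannery (δ := fun k => s.γ k * (zz s.α k)⁻¹) (by simpa only [hnorm] using s.sum0)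
      (w := fun k => (zz s.α k)⁻¹) (fun k => by rw [norm_inv, zz_norm, inv_one])
      (by rw [hzz0, inv_one])
      (fun k hk => by
        intro h
        exact zz_ne_one (s.hirr k hk) (by rw [← inv_inv (zz s.α k), h, inv_one]))
    simp only [hzz0, inv_one, mul_one] at h1
    have h2 := (h1.norm.eventually (lt_mem_nhds (half_lt_self (norm_pos_iff.2 h0)))).and
      (eventually_gt_atTop 0)
    obtain ⟨n₀, hn₀⟩ := eventually_atTop.1 h2
    refine ⟨n₀, fun n hn => ?_⟩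
    obtain ⟨h3, h4⟩ := hn₀ n hn
    have hnr : (0:ℝ) < n := by exact_mod_cast h4
    have e : ∑' k, s.γ k * (zz s.α k)⁻¹ * ((1 / (n:ℂ)) * ∑ j ∈ range n, (zz s.α k)⁻¹^j) =
        ((-(1 / (n:ℝ) * s.S (-n)) : ℝ) : ℂ) := by
      have h50 : HasSum (fun k => ∑ j ∈ range n, s.γ k * zz s.α k^(-((j:ℤ)+1)))
          (∑ j ∈ range n, ((s.a (-((j:ℤ)+1)) : ℝ) : ℂ)) :=
        hasSum_sum (fun j _ => s.ha (-((j:ℤ)+1)))
      have h5 : HasSum (fun k => (1 / (n:ℂ)) * ∑ j ∈ range n, s.γ k * zz s.α k^(-((j:ℤ)+1)))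
          ((1 / (n:ℂ)) * ∑ j ∈ range n, ((s.a (-((j:ℤ)+1)) : ℝ) : ℂ)) :=
        h50.mul_left (1 / (n:ℂ))
      have h6 : s.S (-n) = -∑ j ∈ range n, s.a (-((j:ℤ)+1)) := by
        clear h3 h4 h5 h50 hnr
        clear hn
        induction n with
        | zero => simp [s.hS0]
        | succ n ih =>
          rw [sum_range_succ, neg_add, ← ih]
          have h1 := s.hS (-((n:ℤ)+1))
          rw [show -((n:ℤ)+1) + 1 = -(n:ℤ) by ring] at h1
          push_cast
          rw [h1]; ring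
      rw [h6]; push_cast
      rw [mul_neg, neg_neg, ← h5.tsum_eq]
      congr 1; ext k
      rw [← mul_sum]
      have h7 : ∀ j : ℕ, zz s.α k ^ (-((j:ℤ)+1)) = (zz s.α k)⁻¹ * (zz s.α k)⁻¹^j := by
        intro j
        rw [zpow_neg, zpow_add₀ (zz_ne_zero _ _), zpow_natCast, zpow_one, mul_inv, inv_pow]; ring
      simp only [h7]
      rw [← mul_sum]
      ring
    rw [e, Complex.norm_real, Real.norm_eq_abs, abs_neg, abs_mul,
      abs_of_pos (by positivity : 0 < 1/(n:ℝ))] at h3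
    have : ‖s.γ 0‖ / 2 * n < (1 / (n:ℝ) * |s.S (-n)|) * n := mul_lt_mul_of_pos_right h3 hnr
    have e2 : (1 / (n:ℝ) * |s.S (-n)|) * n = |s.S (-n)| := by field_simp
    linarith
  obtain ⟨n₁, h1⟩ := hp
  obtain ⟨n₂, h2⟩ := hn
  have hc : 0 < ‖s.γ 0‖ / 2 := half_pos (norm_pos_iff.2 h0)
  rw [tendsto_atTop]
  intro C
  rw [Filter.eventually_cofinite]
  obtain ⟨n₃, hn₃⟩ := exists_nat_ge (C / (‖s.γ 0‖ / 2))
  rw [div_le_iff₀ hc] at hn₃
  refine (Set.finite_Icc (-((max (max n₁ n₂) n₃ : ℕ) : ℤ)) (max (max n₁ n₂) n₃ : ℕ)).subset ?_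
  intro n hn
  by_contra hout
  apply hn
  rw [Set.mem_Icc, not_and_or, not_le, not_le] at hout
  rcases hout with h | h
  · have h3 := h2 n.natAbs (by omega)
    have h4 : (-((n.natAbs : ℕ) : ℤ)) = n := by omega
    rw [h4] at h3
    have h5 : (n₃:ℝ) ≤ n.natAbs := by exact_mod_cast (by omega : n₃ ≤ n.natAbs)
    nlinarith
  · have h3 := h1 n.natAbs (by omega)
    have h4 : (((n.natAbs : ℕ) : ℤ)) = n := by omega
    rw [h4] at h3
    have h5 : (n₃:ℝ) ≤ n.natAbs := by exact_mod_cast (by omega : n₃ ≤ n.natAbs)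
    nlinarith

end Pool.Agent.Q67.BC
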