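import Pool.Agent.Q67.BC.Kernel
import Pool.Agent.Q67.BC.Chain

/-!
# Symmetric Birkhoff sums do not tend to infinity
-/

namespace Pool.Agent.Q67.BC

open Finset Real Filter Topology

variable {d : ℕ}

lemma ss_nonneg (α : Fin d → ℝ) (k : Fin d → ℤ) : 0 ≤ ss α k := sq_nonneg _

lemma ss_le_one (α : Fin d → ℝ) (k : Fin d → ℤ) : ss α k ≤ 1 := sin_sq_le_one _

lemma ss_pos {α : Fin d → ℝ} {k : Fin d → ℤ} (h : eta α k ≠ 0) : 0 < ss α k := by
  have := ss_lower α k
  have : 0 < eta α k ^2 := by positivity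
  linarith

/-- the tail of an absolutely summable family -/
noncomputable def tl (g : (Fin d → ℤ) → ℝ) (K : ℕ) : ℝ :=
  ∑' k, if (K:ℝ) < ‖k‖ then |g k| else 0

lemma summable_tl {g : (Fin d → ℤ) → ℝ} (hg : Summable (fun k => |g k|)) (K : ℕ) :
    Summable (fun k => if (K:ℝ) < ‖k‖ then |g k| else 0) := by
  refine Summable.of_nonneg_of_le (fun k => ?_) (fun k => ?_) hg
  · split_ifs <;> simp
  · split_ifs <;> simp

lemma tl_nonneg (g : (Fin d → ℤ) → ℝ) (K : ℕ) : 0 ≤ tl g K :=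
  tsum_nonneg (fun k => by split_ifs <;> simp)

lemma tl_bound {g : (Fin d → ℤ) → ℝ} (N : ℕ) (hg : Summable (fun k => |g k| * ‖k‖^N)) (K : ℕ)
    (hK : 1 ≤ K) (hg0 : Summable (fun k => |g k|)) :
    tl g K * K^N ≤ ∑' k, |g k| * ‖k‖^N := by
  unfold tl
  rw [← tsum_mul_right]
  refine ((summable_tl hg0 K).mul_right _).tsum_le_tsum (fun k => ?_) hg
  have hK0 : (0:ℝ) ≤ K := by positivity
  split_ifs with h
  · exact mul_le_mul_of_nonneg_left (pow_le_pow_left₀ hK0 h.le N) (abs_nonneg _)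
  · rw [zero_mul]; positivity

/-- the spectral estimate -/
lemma spec_diff {α : Fin d → ℝ} {g : (Fin d → ℤ) → ℝ} (hg0 : g 0 = 0)
    (hg : Summable (fun k => |g k|)) {F : ℝ} (hF : ∑' k, |g k| ≤ F) {h : ℕ → ℝ}
    (hspec : ∀ M, h M = ∑' k, g k * (1 - ss α k)^M) {K : ℕ} {M M' : ℕ} (hMM : M ≤ M')
    {σ e : ℝ} (he : 0 ≤ e) (hdich : ∀ k : Fin d → ℤ, k ≠ 0 → ‖k‖ ≤ K → σ ≤ ss α k ∨ ss α k ≤ e) :
    |h M - h M'| ≤ F * (exp (-(M * σ)) + M' * e) + tl g K := by
  have hs : ∀ N : ℕ, Summable (fun k => g k * (1 - ss α k)^N) := by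
    intro N
    refine Summable.of_norm_bounded hg (fun k => ?_)
    rw [norm_mul, norm_eq_abs, norm_pow, norm_eq_abs]
    have h1 := ss_nonneg α k
    have h2 := ss_le_one α k
    have : |1 - ss α k| ≤ 1 := by rw [abs_le]; constructor <;> linarith
    exact mul_le_of_le_one_right (abs_nonneg _) (pow_le_one₀ (abs_nonneg _) this)
  rw [hspec, hspec, ← (hs M).tsum_sub (hs M')]
  have hs2 := (hs M).sub (hs M')
  set b : ℝ := exp (-(M * σ)) + M' * e with hb
  have hb0 : 0 ≤ b := by positivity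
  have hbound : ∀ k, |g k * (1 - ss α k)^M - g k * (1 - ss α k)^M'| ≤
      |g k| * b + (if (K:ℝ) < ‖k‖ then |g k| else 0) := by
    intro k
    have h1 := ss_nonneg α k
    have h2 := ss_le_one α k
    have hx0 : 0 ≤ 1 - ss α k := by linarith
    have hx1 : 1 - ss α k ≤ 1 := by linarith
    have hM : 0 ≤ (1 - ss α k)^M := pow_nonneg hx0 _
    have hM' : 0 ≤ (1 - ss α k)^M' := pow_nonneg hx0 _
    have hle : (1 - ss α k)^M' ≤ (1 - ss α k)^M := pow_le_pow_of_le_one hx0 hx1 hMM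
    have hM1 : (1 - ss α k)^M ≤ 1 := pow_le_one₀ hx0 hx1
    rw [← mul_sub, abs_mul, abs_of_nonneg (by linarith : 0 ≤ (1 - ss α k)^M - (1 - ss α k)^M')]
    by_cases hk : (K:ℝ) < ‖k‖
    · rw [if_pos hk]
      have : |g k| * ((1 - ss α k)^M - (1 - ss α k)^M') ≤ |g k| * 1 :=
        mul_le_mul_of_nonneg_left (by linarith) (abs_nonneg _)
      have h3 : 0 ≤ |g k| * b := by positivity
      linarith
    · rw [if_neg hk, add_zero]
      by_cases hk0 : k = 0
      · rw [hk0, hg0]; simp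
      apply mul_le_mul_of_nonneg_left _ (abs_nonneg _)
      rcases hdich k hk0 (not_lt.1 hk) with h3 | h3
      · have h4 : (1 - ss α k)^M ≤ exp (-(M * σ)) := by
          calc (1 - ss α k)^M ≤ (exp (-ss α k))^M :=
                pow_le_pow_left₀ hx0 (one_sub_le_exp_neg _) M
            _ = exp (-(M * ss α k)) := by rw [← exp_nat_mul]; congr 1; ring
            _ ≤ exp (-(M * σ)) := by
              apply exp_le_exp.2
              have : (M:ℝ) * σ ≤ M * ss α k := mul_le_mul_of_nonneg_left h3 (by positivity)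
              linarith
        have : 0 ≤ (M':ℝ) * e := by positivity
        linarith
      · have h4 : 1 - M' * ss α k ≤ (1 - ss α k)^M' := by
          have := one_add_mul_le_pow (a := -ss α k) (by linarith) M'
          calc 1 - M' * ss α k = 1 + M' * (-ss α k) := by ring
            _ ≤ (1 + -ss α k)^M' := this
            _ = _ := by ring_nf
        have h5 : (M':ℝ) * ss α k ≤ M' * e := mul_le_mul_of_nonneg_left h3 (by positivity)
        have h6 : 0 < exp (-(M * σ)) := exp_pos _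
        linarith
  have hsb : Summable (fun k => |g k| * b + (if (K:ℝ) < ‖k‖ then |g k| else 0)) :=
    (hg.mul_right b).add (summable_tl hg K)
  calc |∑' k, (g k * (1 - ss α k)^M - g k * (1 - ss α k)^M')|
      ≤ ∑' k, |g k * (1 - ss α k)^M - g k * (1 - ss α k)^M'| := by
        have := norm_tsum_le_tsum_norm (f := fun k => g k * (1 - ss α k)^M - g k * (1 - ss α k)^M')
          (Summable.of_nonneg_of_le (fun _ => norm_nonneg _) hbound hsb)
        simpa only [norm_eq_abs] using this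
    _ ≤ ∑' k, (|g k| * b + (if (K:ℝ) < ‖k‖ then |g k| else 0)) :=
        (Summable.of_nonneg_of_le (fun _ => abs_nonneg _) hbound hsb).tsum_le_tsum hbound hsb
    _ = (∑' k, |g k|) * b + tl g K := by
        rw [(hg.mul_right b).tsum_add (summable_tl hg K), tsum_mul_right]; rfl
    _ ≤ F * b + tl g K := by
        have := mul_le_mul_of_nonneg_right hF hb0
        linarith

lemma spec_top {α : Fin d → ℝ} {g : (Fin d → ℤ) → ℝ} (hg0 : g 0 = 0)
    (hg : Summable (fun k => |g k|)) {F : ℝ} (hF : ∑' k, |g k| ≤ F) {h : ℕ → ℝ}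
    (hspec : ∀ M, h M = ∑' k, g k * (1 - ss α k)^M) {K : ℕ} {M : ℕ}
    {σ : ℝ} (hdich : ∀ k : Fin d → ℤ, k ≠ 0 → ‖k‖ ≤ K → σ ≤ ss α k) :
    |h M| ≤ F * exp (-(M * σ)) + tl g K := by
  set b : ℝ := exp (-(M * σ)) with hb
  have hb0 : 0 ≤ b := by positivity
  have hbound : ∀ k, |g k * (1 - ss α k)^M| ≤
      |g k| * b + (if (K:ℝ) < ‖k‖ then |g k| else 0) := by
    intro k
    have h1 := ss_nonneg α k
    have h2 := ss_le_one α k
    have hx0 : 0 ≤ 1 - ss α k := by linarith
    have hx1 : 1 - ss α k ≤ 1 := by linarith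
    have hM : 0 ≤ (1 - ss α k)^M := pow_nonneg hx0 _
    have hM1 : (1 - ss α k)^M ≤ 1 := pow_le_one₀ hx0 hx1
    rw [abs_mul, abs_of_nonneg hM]
    by_cases hk : (K:ℝ) < ‖k‖
    · rw [if_pos hk]
      have : |g k| * ((1 - ss α k)^M) ≤ |g k| * 1 :=
        mul_le_mul_of_nonneg_left (by linarith) (abs_nonneg _)
      have h3 : 0 ≤ |g k| * b := by positivity
      linarith
    · rw [if_neg hk, add_zero]
      by_cases hk0 : k = 0
      · rw [hk0, hg0]; simp
      apply mul_le_mul_of_nonneg_left _ (abs_nonneg _)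
      have h3 := hdich k hk0 (not_lt.1 hk)
      calc (1 - ss α k)^M ≤ (exp (-ss α k))^M :=
            pow_le_pow_left₀ hx0 (one_sub_le_exp_neg _) M
        _ = exp (-(M * ss α k)) := by rw [← exp_nat_mul]; congr 1; ring
        _ ≤ exp (-(M * σ)) := by
          apply exp_le_exp.2
          have : (M:ℝ) * σ ≤ M * ss α k := mul_le_mul_of_nonneg_left h3 (by positivity)
          linarith
  have hsb : Summable (fun k => |g k| * b + (if (K:ℝ) < ‖k‖ then |g k| else 0)) :=
    (hg.mul_right b).add (summable_tl hg K)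
  rw [hspec]
  calc |∑' k, g k * (1 - ss α k)^M|
      ≤ ∑' k, |g k * (1 - ss α k)^M| := by
        have := norm_tsum_le_tsum_norm (f := fun k => g k * (1 - ss α k)^M)
          (Summable.of_nonneg_of_le (fun _ => norm_nonneg _) hbound hsb)
        simpa only [norm_eq_abs] using this
    _ ≤ ∑' k, (|g k| * b + (if (K:ℝ) < ‖k‖ then |g k| else 0)) :=
        (Summable.of_nonneg_of_le (fun _ => abs_nonneg _) hbound hsb).tsum_le_tsum hbound hsb
    _ = (∑' k, |g k|) * b + tl g K := by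
        rw [(hg.mul_right b).tsum_add (summable_tl hg K), tsum_mul_right]; rfl
    _ ≤ F * b + tl g K := by
        have := mul_le_mul_of_nonneg_right hF hb0
        linarith

/-- positivity and comparison -/
lemma drift_pos {U : ℕ → ℝ} (hU : Tendsto U atTop atTop) :
    ∃ M₀ : ℕ, 1 ≤ M₀ ∧ (∀ M, M₀ ≤ M → 1 / (4*M) ≤ hk U M) ∧
      ∀ M₁ M, M₀ ≤ M₁ → M₁ ≤ M → (M₁:ℝ)^2 * hk U M₁ ≤ 2 * (M:ℝ)^2 * hk U M := by
  -- a lower bound for `U`
  obtain ⟨C, hC0, hC⟩ : ∃ C : ℝ, 0 ≤ C ∧ ∀ n, -C ≤ U n := by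
    obtain ⟨n0, hn0⟩ := eventually_atTop.1 (hU.eventually_ge_atTop 0)
    refine ⟨∑ n ∈ range n0, |U n|, by positivity, fun n => ?_⟩
    have hS : 0 ≤ ∑ n ∈ range n0, |U n| := by positivity
    by_cases hn : n < n0
    · have h1 : |U n| ≤ ∑ n ∈ range n0, |U n| :=
        Finset.single_le_sum (f := fun n => |U n|) (fun _ _ => abs_nonneg _) (mem_range.2 hn)
      have h2 := neg_abs_le (U n)
      linarith
    · have := hn0 n (not_lt.1 hn); linarith
  obtain ⟨n1, hn1⟩ := eventually_atTop.1 (hU.eventually_ge_atTop (4*C+2))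
  have hlow : ∀ M, n1 + 2*n1^2 + 1 ≤ M → (C+1) * bk M 0 ≤ hk U M := by
    intro M hM
    have hMn : n1 ≤ M := by omega
    have h1 : (1/2) * bk M 0 ≤ bk M n1 := by
      have h2 := bk_lower M n1
      have h3 : (n1:ℝ)^2 / (M+1) ≤ 1/2 := by
        rw [div_le_iff₀ (by positivity)]
        have h4 : 2*n1^2 ≤ M := by omega
        have h5 : 2*(n1:ℝ)^2 ≤ M := by exact_mod_cast h4
        linarith
      have h6 := bk_nonneg M 0
      nlinarith
    have h0 := bk_nonneg M 0
    have hsplit : hk U M = ∑ n ∈ range n1, dk M n * U n + ∑ n ∈ Ico n1 (M+1), dk M n * U n := by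
      unfold hk
      rw [Finset.sum_range_add_sum_Ico _ (by omega : n1 ≤ M+1)]
    have hA : -C * (bk M 0 - bk M n1) ≤ ∑ n ∈ range n1, dk M n * U n := by
      rw [← sum_dk M n1, mul_sum]
      refine sum_le_sum (fun n _ => ?_)
      have := mul_le_mul_of_nonneg_left (hC n) (dk_nonneg M n)
      linarith
    have hB : (4*C+2) * bk M n1 ≤ ∑ n ∈ Ico n1 (M+1), dk M n * U n := by
      have h2 : bk M n1 = ∑ n ∈ Ico n1 (M+1), dk M n := by
        have h3 := sum_dk M (M+1)
        have h4 := sum_dk M n1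
        rw [bk_zero_of_lt (Nat.lt_succ_self M)] at h3
        have h5 := Finset.sum_range_add_sum_Ico (dk M) (by omega : n1 ≤ M+1)
        linarith
      rw [h2, mul_sum]
      refine sum_le_sum (fun n hn => ?_)
      rw [mem_Ico] at hn
      have := mul_le_mul_of_nonneg_left (hn1 n hn.1) (dk_nonneg M n)
      linarith
    rw [hsplit]
    nlinarith
  refine ⟨n1 + 2*n1^2 + 1, by omega, fun M hM => ?_, fun M₁ M h1 h2 => ?_⟩
  · have h1 := hlow M hM
    have hM1 : 1 ≤ M := by omega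
    have h2 := bk_zero_lower hM1
    have hMr : (0:ℝ) < M := by exact_mod_cast hM1
    have h3 : (1:ℝ) / (4*M) ≤ 1 / (2*M) := by
      apply div_le_div_of_nonneg_left (by norm_num) (by positivity) (by linarith)
    have h4 := bk_nonneg M 0
    nlinarith
  · have hl := hlow M (h1.trans h2)
    have hM1 : 1 ≤ M₁ := by omega
    have hb0 := bk_nonneg M 0
    have e1 : (M₁:ℝ)^2 * hk U M₁ ≤ ∑ n ∈ range (M₁+1), (M₁:ℝ)^2 * dk M₁ n * (U n + C) := by
      unfold hk
      rw [mul_sum]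
      refine sum_le_sum (fun n _ => ?_)
      have h3 : 0 ≤ (M₁:ℝ)^2 * dk M₁ n := by have := dk_nonneg M₁ n; positivity
      nlinarith
    have e2 : ∑ n ∈ range (M₁+1), (M₁:ℝ)^2 * dk M₁ n * (U n + C) ≤
        ∑ n ∈ range (M₁+1), (M:ℝ)^2 * dk M n * (U n + C) := by
      refine sum_le_sum (fun n _ => ?_)
      exact mul_le_mul_of_nonneg_right (dk_mono hM1 h2 n) (by linarith [hC n])
    have e3 : ∑ n ∈ range (M₁+1), (M:ℝ)^2 * dk M n * (U n + C) ≤
        ∑ n ∈ range (M+1), (M:ℝ)^2 * dk M n * (U n + C) := by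
      refine sum_le_sum_of_subset_of_nonneg (range_subset_range.2 (by omega)) (fun n _ _ => ?_)
      have h3 := dk_nonneg M n
      have h4 : 0 ≤ U n + C := by linarith [hC n]
      positivity
    have e4 : ∑ n ∈ range (M+1), (M:ℝ)^2 * dk M n * (U n + C) =
        (M:ℝ)^2 * (hk U M + C * bk M 0) := by
      have h3 := sum_dk M (M+1)
      rw [bk_zero_of_lt (Nat.lt_succ_self M), sub_zero] at h3
      unfold hk
      rw [← h3, mul_add, mul_sum, mul_sum, mul_sum, ← sum_add_distrib]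
      refine sum_congr rfl (fun n _ => by ring)
    have h5 : C * bk M 0 ≤ hk U M := by nlinarith
    have h6 : (0:ℝ) ≤ (M:ℝ)^2 := by positivity
    have h7 : (M:ℝ)^2 * (hk U M + C * bk M 0) ≤ (M:ℝ)^2 * (hk U M + hk U M) :=
      mul_le_mul_of_nonneg_left (by linarith) h6
    linarith

end Pool.Agent.Q67.BC
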