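import Pool.Agent.Q67.BC.Proc

/-!
# Conclusion of the two parts
-/

namespace Pool.Agent.Q67.BC

open Finset Real Filter Topology

variable {d : ℕ}

/-- polynomially bounded functions -/
def PB (f : ℕ → ℝ) : Prop := ∃ C : ℝ, ∃ N : ℕ, 0 ≤ C ∧ ∀ K : ℕ, 1 ≤ K → |f K| ≤ C * (K:ℝ)^N

lemma PB.const (c : ℝ) : PB (fun _ => c) := ⟨|c|, 0, abs_nonneg _, fun K _ => by simp⟩

lemma PB.id : PB (fun K => (K:ℝ)) := ⟨1, 1, zero_le_one, fun K _ => by simp⟩

lemma PB.mul {f g : ℕ → ℝ} (hf : PB f) (hg : PB g) : PB (fun K => f K * g K) := by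
  obtain ⟨C, N, hC, h1⟩ := hf
  obtain ⟨D, M, hD, h2⟩ := hg
  refine ⟨C * D, N + M, by positivity, fun K hK => ?_⟩
  rw [abs_mul]
  calc |f K| * |g K| ≤ (C * (K:ℝ)^N) * (D * (K:ℝ)^M) :=
        mul_le_mul (h1 K hK) (h2 K hK) (abs_nonneg _) (by positivity)
    _ = _ := by ring

lemma PB.pow {f : ℕ → ℝ} (hf : PB f) (n : ℕ) : PB (fun K => f K ^ n) := by
  induction n with
  | zero => simpa using PB.const 1
  | succ n ih => simpa [pow_succ] using ih.mul hf

lemma PB_TT (d : ℕ) : PB (fun K => (TT d K : ℝ)) := by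
  have h : (fun K : ℕ => (TT d K : ℝ)) =
      fun K : ℕ => 4 * ((((d:ℝ)+1) * (((2 * ((d:ℝ)+1)) * (K:ℝ))^d))^2) := by
    ext K; unfold TT AA; push_cast; ring
  rw [h]
  exact (PB.const 4).mul (((PB.const _).mul (((PB.const _).mul PB.id).pow d)).pow 2)

lemma PB_YZ (F : ℝ) (d i : ℕ) : PB (fun K => (YZ F (TT d K) K i).1) := by
  induction i with
  | zero =>
    simp only [YZ]
    have h : (fun K : ℕ => 8 * (TT d K : ℝ) * (384 * F * (TT d K : ℝ) * (K:ℝ))) =
      fun K => (8 * 384 * F) * (((TT d K : ℝ) * (TT d K : ℝ)) * (K:ℝ)) := by ext K; ring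
    rw [h]
    exact (PB.const _).mul (((PB_TT d).mul (PB_TT d)).mul PB.id)
  | succ i ih =>
    simp only [YZ]
    have h : (fun K : ℕ => 4096 * (TT d K : ℝ)^2 * F^2 *
        (196608 * F^3 * (TT d K : ℝ)^2 * (YZ F (TT d K) K i).1^3)^2 * (YZ F (TT d K) K i).1^3) =
      fun K => (4096 * F^2 * (196608 * F^3)^2) * (((TT d K : ℝ)^6) *
        ((YZ F (TT d K) K i).1^9)) := by ext K; ring
    rw [h]
    exact (PB.const _).mul (((PB_TT d).pow 6).mul (ih.pow 9))

/-- large cut-offs beat polynomials -/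
lemma exists_cutoff {g : (Fin d → ℤ) → ℝ} (hgs : ∀ N : ℕ, Summable (fun k => |g k| * ‖k‖^N))
    {f : ℕ → ℝ} (hf : PB f) (K₀ : ℕ) : ∃ K, K₀ ≤ K ∧ 1 ≤ K ∧ f K * tl g K ≤ 1 := by
  obtain ⟨C, N, hC, h⟩ := hf
  have hg0 : Summable (fun k => |g k|) := by simpa using hgs 0
  obtain ⟨K, hK⟩ := exists_nat_ge (C * ∑' k, |g k| * ‖k‖^(N+1))
  refine ⟨max K (max K₀ 1), by omega, by omega, ?_⟩
  set L := max K (max K₀ 1) with hL
  have hL1 : 1 ≤ L := by omega
  have hLr : (1:ℝ) ≤ L := by exact_mod_cast hL1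
  have hKL : (K:ℝ) ≤ L := by exact_mod_cast (le_max_left _ _)
  have h1 := tl_bound (N+1) (hgs (N+1)) L hL1 hg0
  have h2 := h L hL1
  have h3 := tl_nonneg g L
  have h4 : f L * tl g L ≤ C * (L:ℝ)^N * tl g L :=
    mul_le_mul_of_nonneg_right (le_trans (le_abs_self _) h2) h3
  refine h4.trans ?_
  have h5 : (C * (L:ℝ)^N * tl g L) * L ≤ 1 * L := by
    calc (C * (L:ℝ)^N * tl g L) * L = C * (tl g L * (L:ℝ)^(N+1)) := by ring
      _ ≤ C * ∑' k, |g k| * ‖k‖^(N+1) := mul_le_mul_of_nonneg_left h1 hC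
      _ ≤ 1 * L := by linarith
  exact le_of_mul_le_mul_right h5 (by linarith)

/-- **symmetric sums do not drift** -/
theorem no_sym_drift {α : Fin d → ℝ} (hirr : ∀ k : Fin d → ℤ, k ≠ 0 → eta α k ≠ 0)
    {g : (Fin d → ℤ) → ℝ} (hg0 : g 0 = 0) (hgs : ∀ N : ℕ, Summable (fun k => |g k| * ‖k‖^N))
    {U : ℕ → ℝ} (hU : Tendsto U atTop atTop)
    (hspec : ∀ M, hk U M = ∑' k, g k * (1 - ss α k)^M) : False := by
  have hg : Summable (fun k => |g k|) := by simpa using hgs 0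
  set F := 1 + ∑' k, |g k| with hFd
  have hF1 : 1 ≤ F := by
    have : 0 ≤ ∑' k, |g k| := tsum_nonneg (fun _ => abs_nonneg _)
    linarith
  have hF : ∑' k, |g k| ≤ F := by linarith
  obtain ⟨M₀, _, hlow, hcomp⟩ := drift_pos hU
  obtain ⟨K, hKM, hK, hcut⟩ := exists_cutoff hgs
    ((PB.const 8).mul (PB_YZ F d (d+1))) M₀
  have hΘ : (1:ℝ) ≤ TT d K := by
    have := TT_ge (d := d) hK
    exact_mod_cast (by omega : 1 ≤ TT d K)
  have hKr : (1:ℝ) ≤ K := by exact_mod_cast hK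
  have hmono : ∀ i j : ℕ, i ≤ j → (YZ F (TT d K) K i).1 ≤ (YZ F (TT d K) K j).1 := by
    intro i j hij
    induction j, hij using Nat.le_induction with
    | base => exact le_rfl
    | succ j _ ih => exact ih.trans (YZ_facts hF1 hΘ hKr j).2.2.1
  have hall : ∀ i, i ≤ d + 1 → Pst α (hk U) F K M₀ i := by
    intro i
    induction i with
    | zero => intro _; exact proc_zero hF1 hK hlow hKM
    | succ i ih =>
      intro hi
      refine proc_step hirr hg0 hg hF1 hF hspec hK hcomp ?_ (ih (by omega))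
      have h1 := hmono i (d+1) (by omega)
      have h2 := tl_nonneg g K
      calc 8 * (YZ F (TT d K) K i).1 * tl g K ≤ 8 * (YZ F (TT d K) K (d+1)).1 * tl g K :=
            mul_le_mul_of_nonneg_right (by linarith) h2
        _ ≤ 1 := hcut
  obtain ⟨_, _, _, _, _, k, hk0, hkK, hk1, hk2, _⟩ := hall (d+1) le_rfl
  exact no_chain α hirr hK k hk0 hkK hk1 hk2

/-! ### the even part -/

/-- the thresholds -/
def Tq (d K : ℕ) : ℕ → ℕ
  | 0 => TT d K * K
  | j+1 => TT d K * (Tq d K j)^(4*d+1)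

lemma Tq_ge {d K : ℕ} (hK : 1 ≤ K) (j : ℕ) : TT d K * K ≤ Tq d K j := by
  have hT := TT_ge (d := d) hK
  induction j with
  | zero => exact le_rfl
  | succ j ih =>
    simp only [Tq]
    have h1 : 1 ≤ Tq d K j := le_trans (Nat.mul_pos (by omega) hK) ih
    have h2 : Tq d K j ≤ (Tq d K j)^(4*d+1) := Nat.le_self_pow (by omega) _
    nlinarith

lemma PB_Tq (d j : ℕ) : PB (fun K => (Tq d K j : ℝ)) := by
  induction j with
  | zero =>
    have h : (fun K : ℕ => (Tq d K 0 : ℝ)) = fun K => (TT d K : ℝ) * K := by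
      ext K; simp [Tq]
    rw [h]; exact (PB_TT d).mul PB.id
  | succ j ih =>
    have h : (fun K : ℕ => (Tq d K (j+1) : ℝ)) = fun K => (TT d K : ℝ) * (Tq d K j : ℝ)^(4*d+1) := by
      ext K; simp [Tq]
    rw [h]; exact (PB_TT d).mul (ih.pow _)

lemma Tq_mono {d K : ℕ} (hK : 1 ≤ K) {i j : ℕ} (hij : i ≤ j) : Tq d K i ≤ Tq d K j := by
  induction j, hij using Nat.le_induction with
  | base => exact le_rfl
  | succ j _ ih =>
    refine ih.trans ?_
    simp only [Tq]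
    have hT := TT_ge (d := d) hK
    have h2 : Tq d K j ≤ (Tq d K j)^(4*d+1) := Nat.le_self_pow (by omega) _
    nlinarith

/-- a spectral gap at a polynomial scale -/
lemma gap {α : Fin d → ℝ} (hirr : ∀ k : Fin d → ℤ, k ≠ 0 → eta α k ≠ 0) {K : ℕ} (hK : 1 ≤ K) :
    ∃ j ≤ d, ∀ k : Fin d → ℤ, k ≠ 0 → ‖k‖ ≤ K →
      1 < (Tq d K j : ℝ) * ss α k ∨ (Tq d K j : ℝ)^(4*d) * ss α k < 1 := by
  by_contra hcon
  push Not at hcon
  have hch : ∀ j : Fin (d+1), ∃ k : Fin d → ℤ, k ≠ 0 ∧ ‖k‖ ≤ K ∧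
      (Tq d K j : ℝ) * ss α k ≤ 1 ∧ 1 ≤ (Tq d K j : ℝ)^(4*d) * ss α k := by
    intro j
    obtain ⟨k, h1, h2, h3, h4⟩ := hcon j (by omega)
    exact ⟨k, h1, h2, h3, h4⟩
  choose k hk0 hkK hk1 hk2 using hch
  have hTT : (0:ℝ) ≤ TT d K := by positivity
  refine no_chain α hirr hK k hk0 (fun j => coord_le (hkK j)) (fun j => ?_) (fun j j' hjj => ?_)
  · refine le_trans ?_ (hk1 j)
    apply mul_le_mul_of_nonneg_right _ (ss_nonneg _ _)
    have h1 := Tq_ge (d := d) hK (j : ℕ)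
    have h2 : TT d K ≤ Tq d K j := le_trans (Nat.le_mul_of_pos_right _ hK) h1
    exact_mod_cast h2
  · -- `TT * s' ≤ s`
    have h1 : Tq d K (j+1) ≤ Tq d K j' := Tq_mono hK (by omega)
    have h2 : (TT d K : ℝ) * (Tq d K j : ℝ)^(4*d+1) ≤ Tq d K j' := by
      have : ((TT d K * (Tq d K j)^(4*d+1) : ℕ) : ℝ) ≤ Tq d K j' := by
        have e : TT d K * (Tq d K j)^(4*d+1) = Tq d K (j+1) := rfl
        rw [e]; exact_mod_cast h1
      push_cast at this; exact this
    have hT1 : (1:ℝ) ≤ Tq d K j := by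
      have h3 := Tq_ge (d := d) hK (j : ℕ)
      have h4 := TT_ge (d := d) hK
      have : 1 ≤ Tq d K j := le_trans (Nat.mul_pos (by omega) hK) h3
      exact_mod_cast this
    set T : ℝ := (Tq d K j : ℝ) with hT
    have hTp : 0 < T^(4*d) := by positivity
    have h5 : (TT d K : ℝ) * T^(4*d) ≤ Tq d K j' := by
      refine le_trans ?_ h2
      apply mul_le_mul_of_nonneg_left _ hTT
      exact pow_le_pow_right₀ hT1 (by omega)
    have h6 : (TT d K : ℝ) * T^(4*d) * ss α (k j') ≤ 1 :=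
      le_trans (mul_le_mul_of_nonneg_right h5 (ss_nonneg _ _)) (hk1 j')
    have h7 := hk2 j
    have h8 : T^(4*d) * ((TT d K : ℝ) * ss α (k j')) ≤ T^(4*d) * ss α (k j) := by
      calc T^(4*d) * ((TT d K : ℝ) * ss α (k j')) = (TT d K : ℝ) * T^(4*d) * ss α (k j') := by ring
        _ ≤ 1 := h6
        _ ≤ _ := h7
    exact le_of_mul_le_mul_left h8 hTp

/-- Dirichlet's simultaneous approximation -/
lemma dirichlet (α : Fin d → ℝ) {Q : ℕ} (hQ : 1 ≤ Q) :
    ∃ n : ℕ, 1 ≤ n ∧ n ≤ Q^d ∧ ∀ l, ∃ p : ℤ, |n * α l - p| ≤ 1 / Q := by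
  have hQr : (0:ℝ) < Q := by exact_mod_cast hQ
  let f : Fin (Q^d+1) → (Fin d → Fin Q) := fun m l =>
    ⟨⌊Q * Int.fract ((m:ℕ) * α l)⌋₊, by
      rw [Nat.floor_lt (by positivity)]
      have := Int.fract_lt_one ((m:ℕ) * α l)
      nlinarith⟩
  obtain ⟨m, m', hne, hf⟩ := Fintype.exists_ne_map_eq_of_card_lt f (by simp)
  have key : ∀ m m' : Fin (Q^d+1), m < m' → f m = f m' →
      ∃ n : ℕ, 1 ≤ n ∧ n ≤ Q^d ∧ ∀ l, ∃ p : ℤ, |n * α l - p| ≤ 1 / Q := by
    intro m m' hmm hf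
    refine ⟨m' - m, ?_, ?_, fun l => ?_⟩
    · have : (m:ℕ) < m' := hmm
      omega
    · have := m'.2; omega
    · refine ⟨⌊(m':ℕ) * α l⌋ - ⌊(m:ℕ) * α l⌋, ?_⟩
      have h1 : ⌊Q * Int.fract ((m:ℕ) * α l)⌋₊ = ⌊Q * Int.fract ((m':ℕ) * α l)⌋₊ := by
        have := congrFun hf l
        simpa [f] using this
      have hle : (m:ℕ) ≤ m' := le_of_lt hmm
      have e : (((m' - m : ℕ) : ℕ) : ℝ) * α l - ((⌊(m':ℕ) * α l⌋ - ⌊(m:ℕ) * α l⌋ : ℤ) : ℝ) =
          Int.fract ((m':ℕ) * α l) - Int.fract ((m:ℕ) * α l) := by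
        rw [Nat.cast_sub hle]
        unfold Int.fract
        push_cast; ring
      rw [e, le_div_iff₀ hQr]
      have habs : |(Q:ℝ)| = Q := abs_of_pos hQr
      have h2 := Nat.floor_le (by have := Int.fract_nonneg ((m:ℕ) * α l); positivity :
        0 ≤ (Q:ℝ) * Int.fract ((m:ℕ) * α l))
      have h3 := Nat.lt_floor_add_one ((Q:ℝ) * Int.fract ((m:ℕ) * α l))
      have h4 := Nat.floor_le (by have := Int.fract_nonneg ((m':ℕ) * α l); positivity :
        0 ≤ (Q:ℝ) * Int.fract ((m':ℕ) * α l))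
      have h5 := Nat.lt_floor_add_one ((Q:ℝ) * Int.fract ((m':ℕ) * α l))
      rw [h1] at h2 h3
      rw [← habs, ← abs_mul, abs_le]
      constructor <;> nlinarith
  rcases lt_or_gt_of_ne hne with h | h
  · exact key m m' h hf
  · exact key m' m h hf.symm

/-- the unit complex number `e^{2πi k·α}` -/
noncomputable def zz (α : Fin d → ℝ) (k : Fin d → ℤ) : ℂ := Complex.exp (2 * π * th α k * Complex.I)

lemma zz_norm (α : Fin d → ℝ) (k : Fin d → ℤ) : ‖zz α k‖ = 1 := by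
  unfold zz
  rw [show (2 * (π:ℂ) * (th α k : ℂ) * Complex.I) = ((2 * π * th α k : ℝ) : ℂ) * Complex.I by
    push_cast; ring]
  exact Complex.norm_exp_ofReal_mul_I _

lemma norm_exp_sub_one_sq (x : ℝ) : ‖Complex.exp (2 * x * Complex.I) - 1‖^2 = 4 * sin x ^2 := by
  have e : Complex.exp (2 * x * Complex.I) = ((cos (2*x) : ℝ) : ℂ) + ((sin (2*x) : ℝ) : ℂ) * Complex.I := by
    rw [show (2 * (x:ℂ) * Complex.I) = ((2 * x : ℝ) : ℂ) * Complex.I by push_cast; ring,
      Complex.exp_mul_I]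
    push_cast; rfl
  rw [e, ← Complex.normSq_eq_norm_sq]
  have : ((cos (2*x) : ℝ) : ℂ) + ((sin (2*x) : ℝ) : ℂ) * Complex.I - 1 =
      ((cos (2*x) - 1 : ℝ) : ℂ) + ((sin (2*x) : ℝ) : ℂ) * Complex.I := by push_cast; ring
  rw [this, Complex.normSq_add_mul_I, cos_two_mul, sin_two_mul]
  have := sin_sq_add_cos_sq x
  nlinarith [sin_sq_add_cos_sq x]

lemma zz_sub_one (α : Fin d → ℝ) (k : Fin d → ℤ) : ‖zz α k - 1‖^2 = 4 * ss α k := by
  unfold zz ss
  have := norm_exp_sub_one_sq (π * th α k)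
  push_cast at this
  rw [← this]
  congr 4
  ring_nf

lemma zz_pow_near {α : Fin d → ℝ} {k : Fin d → ℤ} {n : ℕ} {Q : ℝ}
    (h : ∀ l, ∃ p : ℤ, |n * α l - p| ≤ 1 / Q) : ‖zz α k ^ n - 1‖ ≤ 2 * π * d * ‖k‖ / Q := by
  choose p hp using h
  set x : ℝ := n * th α k - ∑ l, k l * p l with hx
  have e : zz α k ^ n = Complex.exp (2 * ((π * x : ℝ) : ℂ) * Complex.I) := by
    unfold zz
    rw [← Complex.exp_nat_mul]
    have h1 : (2 * ((π * x : ℝ) : ℂ) * Complex.I) = n * (2 * π * th α k * Complex.I) -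
        ((∑ l, k l * p l : ℤ) : ℂ) * (2 * π * Complex.I) := by
      rw [hx]; push_cast; ring
    rw [h1, Complex.exp_sub, Complex.exp_int_mul_two_pi_mul_I, div_one]
  have hxb : |x| ≤ d * ‖k‖ / Q := by
    have h1 : x = ∑ l, (k l : ℝ) * (n * α l - p l) := by
      rw [hx]; unfold th
      push_cast
      rw [mul_sum, ← sum_sub_distrib]
      refine sum_congr rfl (fun l _ => by ring)
    rw [h1]
    calc |∑ l, (k l : ℝ) * (n * α l - p l)| ≤ ∑ l, |(k l : ℝ) * (n * α l - p l)| :=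
          abs_sum_le_sum_abs _ _
      _ ≤ ∑ _l : Fin d, ‖k‖ * (1 / Q) := by
          refine sum_le_sum (fun l _ => ?_)
          rw [abs_mul]
          have h2 := norm_le_pi_norm k l
          rw [Int.norm_eq_abs] at h2
          exact mul_le_mul h2 (hp l) (abs_nonneg _) (norm_nonneg _)
      _ = d * ‖k‖ / Q := by
          rw [sum_const, card_univ, Fintype.card_fin, nsmul_eq_mul]; ring
  have h2 := norm_exp_sub_one_sq (π * x)
  rw [← e] at h2
  have h3 : ‖zz α k ^ n - 1‖^2 ≤ (2 * (π * |x|))^2 := by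
    rw [h2]
    have := sin_sq_le_sq (x := π * x)
    calc 4 * sin (π * x)^2 ≤ 4 * (π * x)^2 := by linarith
      _ = (2 * (π * |x|))^2 := by rw [mul_pow, mul_pow, mul_pow, sq_abs]; norm_num
  have h4 := le_of_abs_le (abs_le_of_sq_le_sq h3 (by positivity))
  refine h4.trans ?_
  calc 2 * (π * |x|) ≤ 2 * (π * (d * ‖k‖ / Q)) := by
        have := mul_le_mul_of_nonneg_left hxb pi_pos.le
        linarith
    _ = _ := by ring

lemma norm_pow_sub_one_le (z : ℂ) (hz : ‖z‖ = 1) (n : ℕ) : ‖z^n - 1‖ ≤ n * ‖z - 1‖ := by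
  induction n with
  | zero => simp
  | succ n ih =>
    have e : z^(n+1) - 1 = z * (z^n - 1) + (z - 1) := by ring
    rw [e]
    calc ‖z * (z^n - 1) + (z - 1)‖ ≤ ‖z * (z^n - 1)‖ + ‖z - 1‖ := norm_add_le _ _
      _ = ‖z^n - 1‖ + ‖z - 1‖ := by rw [norm_mul, hz, one_mul]
      _ ≤ n * ‖z - 1‖ + ‖z - 1‖ := by linarith
      _ = _ := by push_cast; ring

/-- the size of the even part -/
noncomputable def wt (α : Fin d → ℝ) (n : ℕ) (k : Fin d → ℤ) : ℝ :=
  ‖zz α k ^ n - 1‖^2 / ‖zz α k - 1‖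

lemma wt_nonneg (α : Fin d → ℝ) (n : ℕ) (k : Fin d → ℤ) : 0 ≤ wt α n k := by
  unfold wt; positivity

lemma norm_pow_sub_one_le_two (z : ℂ) (hz : ‖z‖ = 1) (n : ℕ) : ‖z^n - 1‖ ≤ 2 := by
  calc ‖z^n - 1‖ ≤ ‖z^n‖ + ‖(1:ℂ)‖ := norm_sub_le _ _
    _ = 2 := by rw [norm_pow, hz]; norm_num

lemma wt_le (α : Fin d → ℝ) (n : ℕ) (k : Fin d → ℤ) : wt α n k ≤ 2 * n := by
  unfold wt
  have h1 := norm_pow_sub_one_le _ (zz_norm α k) n
  have h2 := norm_pow_sub_one_le_two _ (zz_norm α k) n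
  rcases eq_or_lt_of_le (norm_nonneg (zz α k - 1)) with h | h
  · rw [← h, div_zero]; positivity
  · rw [div_le_iff₀ h]
    have := norm_nonneg (zz α k ^ n - 1)
    nlinarith

/-- **the even part is bounded along a sequence** -/
theorem even_bounded {α : Fin d → ℝ} (hirr : ∀ k : Fin d → ℤ, k ≠ 0 → eta α k ≠ 0)
    {g : (Fin d → ℤ) → ℝ} (hg0 : g 0 = 0) (hgs : ∀ N : ℕ, Summable (fun k => |g k| * ‖k‖^N)) :
    ∃ C : ℝ, ∀ n₀ : ℕ, ∃ n, n₀ ≤ n ∧ ∑' k, |g k| * wt α n k ≤ C := by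
  have hg : Summable (fun k => |g k|) := by simpa using hgs 0
  have hsw : ∀ n, Summable (fun k => |g k| * wt α n k) := by
    intro n
    refine Summable.of_nonneg_of_le (fun k => mul_nonneg (abs_nonneg _) (wt_nonneg _ _ _))
      (fun k => mul_le_mul_of_nonneg_left (wt_le α n k) (abs_nonneg _)) (hg.mul_right _)
  refine ⟨∑' k, (|g k| * (2 * π^2 * d^2 * ‖k‖^2 + 2)) + 1, fun n₀ => ?_⟩
  have hsC : Summable (fun k => |g k| * (2 * π^2 * d^2 * ‖k‖^2 + 2)) := by
    have h1 := ((hgs 2).mul_left (2 * π^2 * d^2)).add (hg.mul_right 2)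
    refine h1.congr (fun k => by ring)
  rcases Nat.eq_zero_or_pos d with hd | hd
  · -- dimension zero
    subst hd
    refine ⟨n₀, le_rfl, ?_⟩
    have h1 : ∀ k : Fin 0 → ℤ, |g k| * wt α n₀ k = 0 := by
      intro k
      have : k = 0 := Subsingleton.elim _ _
      rw [this, hg0]; simp
    simp only [h1, tsum_zero]
    have : 0 ≤ ∑' k, (|g k| * (2 * π^2 * ((0:ℕ):ℝ)^2 * ‖k‖^2 + 2)) :=
      tsum_nonneg (fun k => by positivity)
    linarith
  -- a lower bound for the small multiples of one coordinate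
  set l0 : Fin d := ⟨0, hd⟩ with hl0
  have hmu : ∃ μ : ℝ, 0 < μ ∧ ∀ n : ℕ, 1 ≤ n → n < n₀ → ∀ p : ℤ, μ ≤ |n * α l0 - p| := by
    have hstep : ∀ N : ℕ, ∃ μ : ℝ, 0 < μ ∧ ∀ n : ℕ, 1 ≤ n → n < N → ∀ p : ℤ,
        μ ≤ |n * α l0 - p| := by
      intro N
      induction N with
      | zero => exact ⟨1, one_pos, fun n _ h => absurd h (Nat.not_lt_zero _)⟩
      | succ N ih =>
        obtain ⟨μ, hμ, h⟩ := ih
        rcases Nat.eq_zero_or_pos N with hN | hN
        · exact ⟨μ, hμ, fun n h1 h2 => by omega⟩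
        · have hk : (Pi.single l0 (N:ℤ) : Fin d → ℤ) ≠ 0 := by
            intro h0
            have := congrFun h0 l0
            simp at this
            omega
          have he := hirr _ hk
          have hth : th α (Pi.single l0 (N:ℤ)) = N * α l0 := by
            unfold th
            rw [sum_eq_single l0]
            · simp
            · intro b _ hb; simp [Pi.single_eq_of_ne hb]
            · intro h; exact absurd (mem_univ _) h
          refine ⟨min μ |eta α (Pi.single l0 (N:ℤ))|, lt_min hμ (abs_pos.2 he), ?_⟩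
          intro n h1 h2 p
          rcases Nat.lt_succ_iff_lt_or_eq.1 h2 with h3 | h3
          · exact (min_le_left _ _).trans (h n h1 h3 p)
          · subst h3
            refine (min_le_right _ _).trans ?_
            unfold eta
            rw [hth]
            exact round_le _ _
    exact hstep n₀
  obtain ⟨μ, hμ, hμn⟩ := hmu
  obtain ⟨Q₀, hQ₀⟩ := exists_nat_gt (1 / μ)
  obtain ⟨K, hKQ, hK, hcut⟩ := exists_cutoff hgs
    ((PB.const 2).mul ((PB_Tq d d).pow d)) Q₀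
  obtain ⟨j, hj, hdich⟩ := gap hirr hK
  set T := Tq d K j with hT
  have hTK : K ≤ T := by
    have h1 := Tq_ge (d := d) hK j
    have h2 := TT_ge (d := d) hK
    nlinarith
  have hT1 : 1 ≤ T := hK.trans hTK
  have hTr : (1:ℝ) ≤ T := by exact_mod_cast hT1
  have hTpos : (0:ℝ) < T := by linarith
  obtain ⟨n, hn1, hnT, hnp⟩ := dirichlet α hT1
  have hn0 : n₀ ≤ n := by
    by_contra hlt
    push Not at hlt
    obtain ⟨p, hp⟩ := hnp l0
    have h1 := hμn n hn1 hlt p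
    have h2 : (1:ℝ) / T ≤ 1 / K := by
      apply div_le_div_of_nonneg_left (by norm_num)
      · exact_mod_cast hK
      · exact_mod_cast hTK
    have h3 : (1:ℝ) / K < μ := by
      have hKr : (0:ℝ) < K := by exact_mod_cast hK
      have h4 : (Q₀:ℝ) ≤ K := by exact_mod_cast hKQ
      have h5 : 1 / μ < K := lt_of_lt_of_le hQ₀ h4
      rw [div_lt_iff₀ hμ] at h5
      rw [div_lt_iff₀ hKr]; linarith
    linarith
  refine ⟨n, hn0, ?_⟩
  have hnr : (n:ℝ) ≤ (T:ℝ)^d := by exact_mod_cast hnT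
  have hn0r : (0:ℝ) ≤ n := by positivity
  have hbound : ∀ k, |g k| * wt α n k ≤ |g k| * (2 * π^2 * d^2 * ‖k‖^2 + 2) +
      (if (K:ℝ) < ‖k‖ then |g k| else 0) * (2 * n) := by
    intro k
    by_cases hk : (K:ℝ) < ‖k‖
    · rw [if_pos hk]
      have h1 := mul_le_mul_of_nonneg_left (wt_le α n k) (abs_nonneg (g k))
      have h2 : 0 ≤ |g k| * (2 * π^2 * d^2 * ‖k‖^2 + 2) := by positivity
      linarith
    · rw [if_neg hk, zero_mul, add_zero]
      by_cases hk0 : k = 0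
      · rw [hk0, hg0]; simp
      apply mul_le_mul_of_nonneg_left _ (abs_nonneg _)
      have hs0 := ss_pos (hirr k hk0)
      have hδ := zz_sub_one α k
      set δ := ‖zz α k - 1‖ with hδd
      have hδ0 : 0 ≤ δ := norm_nonneg _
      have hδpos : 0 < δ := by
        rcases eq_or_lt_of_le hδ0 with h | h
        · rw [← h] at hδ; nlinarith
        · exact h
      unfold wt
      rw [← hδd, div_le_iff₀ hδpos]
      rcases hdich k hk0 (not_lt.1 hk) with h | h
      · -- non-resonant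
        have h1 := zz_pow_near (k := k) hnp
        have h2 : ‖zz α k ^ n - 1‖^2 ≤ (2 * π * d * ‖k‖ / T)^2 :=
          pow_le_pow_left₀ (norm_nonneg _) h1 2
        -- `2 / T ≤ δ`
        have h3 : 2 / T ≤ δ := by
          have h4 : (2 / T)^2 ≤ δ^2 := by
            rw [hδ, div_pow, div_le_iff₀ (by positivity)]
            nlinarith
          exact le_of_abs_le (le_trans (abs_le_of_sq_le_sq h4 hδ0) le_rfl)
        calc ‖zz α k ^ n - 1‖^2 ≤ (2 * π * d * ‖k‖ / T)^2 := h2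
          _ = (2 * π^2 * d^2 * ‖k‖^2) * (2 / T) / T := by field_simp
          _ ≤ (2 * π^2 * d^2 * ‖k‖^2) * (2 / T) := div_le_self (by positivity) hTr
          _ ≤ (2 * π^2 * d^2 * ‖k‖^2) * δ := mul_le_mul_of_nonneg_left h3 (by positivity)
          _ ≤ (2 * π^2 * d^2 * ‖k‖^2 + 2) * δ := by nlinarith
      · -- resonant
        have h1 := norm_pow_sub_one_le _ (zz_norm α k) n
        have h2 : ‖zz α k ^ n - 1‖^2 ≤ (n * δ)^2 := pow_le_pow_left₀ (norm_nonneg _) h1 2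
        have h3 : (n:ℝ)^2 * δ ≤ 2 := by
          have h4 : ((n:ℝ)^2 * δ)^2 ≤ 2^2 := by
            have h5 : ((n:ℝ)^2)^2 ≤ (T:ℝ)^(4*d) := by
              calc ((n:ℝ)^2)^2 = (n:ℝ)^4 := by ring
                _ ≤ ((T:ℝ)^d)^4 := pow_le_pow_left₀ hn0r hnr 4
                _ = _ := by rw [← pow_mul]; congr 1; ring
            rw [mul_pow, hδ]
            nlinarith
          exact le_of_abs_le (abs_le_of_sq_le_sq h4 (by norm_num))
        calc ‖zz α k ^ n - 1‖^2 ≤ (n * δ)^2 := h2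
          _ = ((n:ℝ)^2 * δ) * δ := by ring
          _ ≤ 2 * δ := mul_le_mul_of_nonneg_right h3 hδ0
          _ ≤ (2 * π^2 * d^2 * ‖k‖^2 + 2) * δ := by
              have : 0 ≤ 2 * π^2 * d^2 * ‖k‖^2 * δ := by positivity
              nlinarith
  calc ∑' k, |g k| * wt α n k ≤ ∑' k, (|g k| * (2 * π^2 * d^2 * ‖k‖^2 + 2) +
      (if (K:ℝ) < ‖k‖ then |g k| else 0) * (2 * n)) :=
        (hsw n).tsum_le_tsum hbound (hsC.add ((summable_tl hg K).mul_right _))
    _ = ∑' k, |g k| * (2 * π^2 * d^2 * ‖k‖^2 + 2) + tl g K * (2 * n) := by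
        rw [hsC.tsum_add ((summable_tl hg K).mul_right _), tsum_mul_right]; rfl
    _ ≤ _ := by
        have h1 := tl_nonneg g K
        have h2 : tl g K * (2 * n) ≤ 1 := by
          have h3 : (T:ℝ) ≤ Tq d K d := by exact_mod_cast Tq_mono hK hj
          calc tl g K * (2 * n) ≤ tl g K * (2 * (T:ℝ)^d) :=
                mul_le_mul_of_nonneg_left (by linarith) h1
            _ ≤ tl g K * (2 * (Tq d K d : ℝ)^d) := by
                apply mul_le_mul_of_nonneg_left _ h1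
                have := pow_le_pow_left₀ (by positivity) h3 d
                linarith
            _ ≤ 1 := by linarith
        linarith

end Pool.Agent.Q67.BC
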