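import Pool.Agent.Q67.BC.Even

/-!
# Fourier coefficients of smooth functions on the torus
-/

noncomputable section

namespace Pool.Agent.Q67.BC

open Finset Filter Topology MeasureTheory UnitAddTorus
open scoped ContDiff

local instance : MeasureSpace UnitAddCircle := ⟨AddCircle.haarAddCircle⟩

local instance : Measure.IsAddHaarMeasure (volume : Measure UnitAddCircle) :=
  inferInstanceAs (Measure.IsAddHaarMeasure AddCircle.haarAddCircle)

local instance : IsProbabilityMeasure (volume : Measure UnitAddCircle) :=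
  inferInstanceAs (IsProbabilityMeasure AddCircle.haarAddCircle)

variable {d : ℕ}

/-- the projection to the torus -/
def pr (x : Fin d → ℝ) : UnitAddTorus (Fin d) := fun i => (x i : UnitAddCircle)

lemma pr_add (x y : Fin d → ℝ) : pr (x + y) = pr x + pr y := by
  ext i; simp [pr]

lemma pr_continuous : Continuous (pr (d := d)) := by
  unfold pr
  exact continuous_pi (fun i => (AddCircle.continuous_mk' 1).comp (continuous_apply i))

lemma pr_surj (t : UnitAddTorus (Fin d)) : ∃ x : Fin d → ℝ, pr x = t := by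
  have : ∀ i, ∃ y : ℝ, (y : UnitAddCircle) = t i := fun i => QuotientAddGroup.mk_surjective (t i)
  choose x hx using this
  exact ⟨x, funext hx⟩

lemma pr_int (x : Fin d → ℝ) (m : Fin d → ℤ) : pr (x + fun i => (m i : ℝ)) = pr x := by
  rw [pr_add]
  have : pr (fun i => (m i : ℝ)) = (0 : UnitAddTorus (Fin d)) := by
    funext i
    show ((m i : ℝ) : UnitAddCircle) = 0
    rw [AddCircle.coe_eq_zero_iff]
    exact ⟨m i, by simp⟩
  rw [this, add_zero]

lemma mF_add (k : Fin d → ℤ) (x y : UnitAddTorus (Fin d)) :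
    mFourier k (x + y) = mFourier k x * mFourier k y := by
  simp only [mFourier, ContinuousMap.coe_mk, Pi.add_apply, ← Finset.prod_mul_distrib]
  refine Finset.prod_congr rfl (fun i _ => ?_)
  rw [fourier_apply, fourier_apply, fourier_apply, smul_add, AddCircle.toCircle_add]
  simp

lemma mF_neg (k : Fin d → ℤ) (x : UnitAddTorus (Fin d)) :
    mFourier (-k) (-x) = mFourier k x := by
  simp only [mFourier, ContinuousMap.coe_mk, Pi.neg_apply]
  refine Finset.prod_congr rfl (fun i _ => ?_)
  rw [fourier_apply, fourier_apply]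
  simp

lemma mF_norm (k : Fin d → ℤ) (x : UnitAddTorus (Fin d)) : ‖mFourier k x‖ = 1 := by
  simp only [mFourier, ContinuousMap.coe_mk, norm_prod]
  apply Finset.prod_eq_one
  intro i _
  exact Circle.norm_coe _

lemma mF_pr (k : Fin d → ℤ) (x : Fin d → ℝ) : mFourier k (pr x) = zz x k := by
  simp only [mFourier, ContinuousMap.coe_mk, pr, fourier_coe_apply]
  rw [← Complex.exp_sum]
  unfold zz th
  congr 1
  push_cast
  rw [Finset.mul_sum, Finset.sum_mul]
  refine Finset.sum_congr rfl (fun i _ => ?_)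
  ring

lemma coeff_translate (f : UnitAddTorus (Fin d) → ℂ) (v : UnitAddTorus (Fin d)) (k : Fin d → ℤ) :
    mFourierCoeff (fun t => f (t + v)) k = mFourier k v * mFourierCoeff f k := by
  unfold mFourierCoeff
  have h : ∀ t, mFourier (-k) t • f (t + v) =
      (fun s => mFourier k v * (mFourier (-k) s • f s)) (t + v) := by
    intro t
    simp only [smul_eq_mul]
    have : mFourier (-k) t = mFourier k v * mFourier (-k) (t + v) := by
      rw [mF_add, ← mF_neg k v]
      have h2 : mFourier (-k) v * mFourier (-k) (-v) = 1 := by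
        rw [← mF_add, add_neg_cancel]
        simp [mFourier]
      calc mFourier (-k) t = mFourier (-k) t * (mFourier (-k) v * mFourier (-k) (-v)) := by
            rw [h2, mul_one]
        _ = _ := by ring
    rw [this]; ring
  simp_rw [h]
  rw [integral_add_right_eq_self (fun s => mFourier k v * (mFourier (-k) s • f s)) v,
    integral_const_mul]

lemma coeff_bound {f : UnitAddTorus (Fin d) → ℂ} {M : ℝ} (h : ∀ t, ‖f t‖ ≤ M) (k : Fin d → ℤ) :
    ‖mFourierCoeff f k‖ ≤ M := by
  unfold mFourierCoeff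
  have := norm_integral_le_of_norm_le_const (μ := (volume : Measure (UnitAddTorus (Fin d))))
    (f := fun t => mFourier (-k) t • f t) (C := M)
    (Eventually.of_forall (fun t => by rw [norm_smul, mF_norm, one_mul]; exact h t))
  simpa using this

/-- difference operator on the torus -/
def DT (v : UnitAddTorus (Fin d)) (f : UnitAddTorus (Fin d) → ℂ) : UnitAddTorus (Fin d) → ℂ :=
  fun t => f (t + v) - f t

lemma DT_continuous {v : UnitAddTorus (Fin d)} {f : UnitAddTorus (Fin d) → ℂ} (hf : Continuous f) :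
    Continuous (DT v f) := by
  unfold DT
  exact (hf.comp (continuous_id.add continuous_const)).sub hf

lemma coeff_DT (f : UnitAddTorus (Fin d) → ℂ) (hf : Continuous f) (v : UnitAddTorus (Fin d))
    (k : Fin d → ℤ) : mFourierCoeff (DT v f) k = (mFourier k v - 1) * mFourierCoeff f k := by
  have h1 := coeff_translate f v k
  have hint : ∀ g : UnitAddTorus (Fin d) → ℂ, Continuous g →
      Integrable (fun t => mFourier (-k) t • g t) := by
    intro g hg
    apply Continuous.integrable_of_hasCompactSupport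
    · exact (mFourier (-k)).continuous.smul hg
    · exact HasCompactSupport.of_compactSpace _
  have h2 : mFourierCoeff (DT v f) k = mFourierCoeff (fun t => f (t + v)) k - mFourierCoeff f k := by
    have hc2 : Continuous (fun t => f (t + v)) := hf.comp (continuous_id.add continuous_const)
    unfold mFourierCoeff DT
    rw [← integral_sub (hint (fun t => f (t + v)) hc2) (hint f hf)]
    congr 1; ext t
    rw [smul_sub]
  rw [h2, h1]; ring

lemma coeff_DT_iter (f : UnitAddTorus (Fin d) → ℂ) (hf : Continuous f) (v : UnitAddTorus (Fin d))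
    (k : Fin d → ℤ) (N : ℕ) :
    mFourierCoeff ((DT v)^[N] f) k = (mFourier k v - 1)^N * mFourierCoeff f k := by
  have hc : ∀ N, Continuous ((DT v)^[N] f) := by
    intro N
    induction N with
    | zero => exact hf
    | succ N ih => rw [Function.iterate_succ_apply']; exact DT_continuous ih
  induction N with
  | zero => simp
  | succ N ih =>
    rw [Function.iterate_succ_apply', coeff_DT _ (hc N), ih, pow_succ]; ring

/-! ### differences on `ℝ^d` -/

/-- difference operator -/
def DR (l : Fin d) (s : ℝ) (F : (Fin d → ℝ) → ℂ) : (Fin d → ℝ) → ℂ :=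
  fun x => F (x + Pi.single l s) - F x

/-- periodic functions -/
def Pe (F : (Fin d → ℝ) → ℂ) : Prop := ∀ x, ∀ m : Fin d → ℤ, F (x + fun i => (m i : ℝ)) = F x

/-- the partial derivative -/
def pd (l : Fin d) (F : (Fin d → ℝ) → ℂ) : (Fin d → ℝ) → ℂ :=
  fun x => fderiv ℝ F x (Pi.single l 1)

lemma pd_smooth {l : Fin d} {F : (Fin d → ℝ) → ℂ} (hF : ContDiff ℝ ∞ F) :
    ContDiff ℝ ∞ (pd l F) := by
  unfold pd
  exact (hF.fderiv_right (m := ∞) (by simp)).clm_apply contDiff_const

lemma pd_per {l : Fin d} {F : (Fin d → ℝ) → ℂ} (hP : Pe F) : Pe (pd l F) := by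
  intro x m
  unfold pd
  have : F = fun y => F (y + fun i => (m i : ℝ)) := by
    funext y; exact (hP y m).symm
  have h2 : fderiv ℝ F x = fderiv ℝ F (x + fun i => (m i : ℝ)) := by
    conv_lhs => rw [this]
    rw [fderiv_comp_add_right]
  rw [h2]

lemma DR_smooth {l : Fin d} {s : ℝ} {F : (Fin d → ℝ) → ℂ} (hF : ContDiff ℝ ∞ F) :
    ContDiff ℝ ∞ (DR l s F) := by
  unfold DR
  exact (hF.comp (contDiff_id.add contDiff_const)).sub hF

lemma DR_pd {l : Fin d} {s : ℝ} {F : (Fin d → ℝ) → ℂ} (hF : ContDiff ℝ ∞ F) :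
    pd l (DR l s F) = DR l s (pd l F) := by
  funext x
  have hd : Differentiable ℝ F := hF.differentiable (by simp)
  unfold pd DR
  have h1 : DifferentiableAt ℝ (fun x => F (x + Pi.single l s)) x :=
    (hd _).comp x (differentiableAt_id.add (differentiableAt_const _))
  rw [fderiv_fun_sub h1 (hd x), fderiv_comp_add_right]
  rfl

lemma hasDeriv_line {l : Fin d} {F : (Fin d → ℝ) → ℂ} (hF : ContDiff ℝ ∞ F) (x : Fin d → ℝ)
    (t : ℝ) : HasDerivAt (fun t : ℝ => F (x + Pi.single l t)) (pd l F (x + Pi.single l t)) t := by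
  have hd : Differentiable ℝ F := hF.differentiable (by simp)
  have h1 : HasFDerivAt F (fderiv ℝ F (x + Pi.single l t)) (x + Pi.single l t) :=
    (hd _).hasFDerivAt
  have h2 : HasDerivAt (fun t : ℝ => x + (Pi.single l t : Fin d → ℝ)) (Pi.single l 1) t := by
    have h3 : HasDerivAt (fun t : ℝ => (Pi.single l t : Fin d → ℝ)) (Pi.single l 1) t := by
      rw [hasDerivAt_pi]
      intro i
      by_cases hi : i = l
      · subst hi; simpa using hasDerivAt_id' t
      · simp [Pi.single_eq_of_ne hi, hasDerivAt_const]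
    simpa using h3.const_add x
  exact h1.comp_hasDerivAt t h2

lemma iter_smooth {l : Fin d} {s : ℝ} (N : ℕ) : ∀ {F : (Fin d → ℝ) → ℂ}, ContDiff ℝ ∞ F →
    ContDiff ℝ ∞ ((DR l s)^[N] F) ∧ pd l ((DR l s)^[N] F) = (DR l s)^[N] (pd l F) := by
  induction N with
  | zero => intro F hF; exact ⟨hF, rfl⟩
  | succ N ih =>
    intro F hF
    obtain ⟨h1, h2⟩ := ih hF
    rw [Function.iterate_succ_apply', Function.iterate_succ_apply']
    exact ⟨DR_smooth h1, by rw [DR_pd h1, h2]⟩

lemma per_bounded {F : (Fin d → ℝ) → ℂ} (hc : Continuous F) (hP : Pe F) : ∃ M, ∀ x, ‖F x‖ ≤ M := by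
  have hcomp : IsCompact (Set.Icc (0 : Fin d → ℝ) 1) := isCompact_Icc
  obtain ⟨M, hM⟩ := (hcomp.image hc.norm).bddAbove
  refine ⟨M, fun x => ?_⟩
  have h1 : F x = F (fun i => Int.fract (x i)) := by
    have := hP (fun i => Int.fract (x i)) (fun i => ⌊x i⌋)
    rw [← this]
    congr 1
    funext i
    simp [Int.fract_add_floor]
  rw [h1]
  apply hM
  refine ⟨fun i => Int.fract (x i), ⟨fun i => Int.fract_nonneg _, fun i => (Int.fract_lt_one _).le⟩, rfl⟩

lemma diff_bound (l : Fin d) (N : ℕ) : ∀ {F : (Fin d → ℝ) → ℂ}, ContDiff ℝ ∞ F → Pe F →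
    ∃ M : ℝ, 0 ≤ M ∧ ∀ s x, ‖(DR l s)^[N] F x‖ ≤ M * |s|^N := by
  induction N with
  | zero =>
    intro F hF hP
    obtain ⟨M, hM⟩ := per_bounded hF.continuous hP
    refine ⟨max M 0, le_max_right _ _, fun s x => ?_⟩
    simpa using Or.inl (hM x)
  | succ N ih =>
    intro F hF hP
    obtain ⟨M, hM0, hM⟩ := ih (pd_smooth (l := l) hF) (pd_per hP)
    refine ⟨M, hM0, fun s x => ?_⟩
    rw [Function.iterate_succ_apply']
    obtain ⟨h1, h2⟩ := iter_smooth (l := l) (s := s) N hF
    set H := (DR l s)^[N] F with hH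
    have hder : ∀ t : ℝ, HasDerivAt (fun t : ℝ => H (x + Pi.single l t))
        ((DR l s)^[N] (pd l F) (x + Pi.single l t)) t := by
      intro t
      have := hasDeriv_line (l := l) h1 x t
      rwa [h2] at this
    have h3 := Convex.norm_image_sub_le_of_norm_hasDerivWithin_le
      (f := fun t : ℝ => H (x + Pi.single l t))
      (f' := fun t => (DR l s)^[N] (pd l F) (x + Pi.single l t)) (C := M * |s|^N)
      (s := Set.univ) (x := 0) (y := s) (fun t _ => (hder t).hasDerivWithinAt)
      (fun t _ => hM s _) convex_univ (Set.mem_univ _) (Set.mem_univ _)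
    have h4 : DR l s H x = (fun t : ℝ => H (x + Pi.single l t)) s -
        (fun t : ℝ => H (x + Pi.single l t)) 0 := by
      unfold DR; simp
    rw [h4]
    refine h3.trans ?_
    rw [sub_zero, Real.norm_eq_abs, pow_succ]
    linarith

/-- decay of the coefficients -/
theorem coeff_decay {f : UnitAddTorus (Fin d) → ℂ} (hf : ContDiff ℝ ∞ (fun x => f (pr x)))
    (hfc : Continuous f) (N : ℕ) :
    ∃ C : ℝ, 0 ≤ C ∧ ∀ k : Fin d → ℤ, ‖mFourierCoeff f k‖ * ‖k‖^N ≤ C := by
  set F : (Fin d → ℝ) → ℂ := fun x => f (pr x) with hF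
  have hP : Pe F := fun x m => by rw [hF]; simp only; rw [pr_int]
  -- a bound for each direction
  have hl : ∀ l : Fin d, ∃ M : ℝ, 0 ≤ M ∧ ∀ k : Fin d → ℤ,
      ‖mFourierCoeff f k‖ * |(k l : ℝ)|^N ≤ M := by
    intro l
    obtain ⟨M, hM0, hM⟩ := diff_bound l N hf hP
    obtain ⟨M', hM'⟩ := per_bounded hf.continuous hP
    refine ⟨max M M', le_max_of_le_left hM0, fun k => ?_⟩
    by_cases hk : k l = 0
    · rw [hk]
      have h1 : ‖mFourierCoeff f k‖ ≤ M' := coeff_bound (fun t => by
        obtain ⟨x, rfl⟩ := pr_surj t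
        exact hM' x) k
      have h2 : |((0:ℤ):ℝ)|^N ≤ 1 := by
        rcases Nat.eq_zero_or_pos N with h | h
        · subst h; simp
        · simp [zero_pow h.ne']
      calc ‖mFourierCoeff f k‖ * |((0:ℤ):ℝ)|^N ≤ ‖mFourierCoeff f k‖ * 1 :=
            mul_le_mul_of_nonneg_left h2 (norm_nonneg _)
        _ ≤ max M M' := by rw [mul_one]; exact h1.trans (le_max_right _ _)
    · have hkr : (k l : ℝ) ≠ 0 := by exact_mod_cast hk
      set s : ℝ := 1 / (2 * k l) with hs
      set v : UnitAddTorus (Fin d) := pr (Pi.single l s) with hv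
      have h1 : ∀ N : ℕ, ∀ x, (DT v)^[N] f (pr x) = (DR l s)^[N] F x := by
        intro N
        induction N with
        | zero => intro x; rfl
        | succ N ih =>
          intro x
          rw [Function.iterate_succ_apply', Function.iterate_succ_apply']
          unfold DT DR
          rw [hv, ← pr_add]
          have e1 := ih (x + Pi.single l s)
          have e2 := ih x
          unfold DT at e1 e2
          unfold DR at e1 e2
          rw [← hv, e1, e2]
      have h2 : ‖mFourierCoeff ((DT v)^[N] f) k‖ ≤ M * |s|^N := coeff_bound (fun t => by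
        obtain ⟨x, rfl⟩ := pr_surj t
        rw [h1]; exact hM s x) k
      rw [coeff_DT_iter f hfc] at h2
      have h3 : mFourier k v = -1 := by
        rw [hv, mF_pr]
        unfold zz th
        have : ∑ i, (k i : ℝ) * (Pi.single l s : Fin d → ℝ) i = 1/2 := by
          rw [Finset.sum_eq_single l]
          · rw [Pi.single_eq_same, hs]; field_simp
          · intro b _ hb; simp [Pi.single_eq_of_ne hb]
          · intro h; exact absurd (Finset.mem_univ _) h
        rw [this]
        have : (2 * (Real.pi:ℂ) * ((1/2 : ℝ) : ℂ) * Complex.I) = Real.pi * Complex.I := by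
          push_cast; ring
        rw [this, Complex.exp_pi_mul_I]
      rw [h3, norm_mul, norm_pow] at h2
      have h4 : ‖(-1:ℂ) - 1‖ = 2 := by norm_num
      rw [h4, hs, abs_div, abs_one, abs_mul, abs_of_pos (by norm_num : (0:ℝ) < 2)] at h2
      have hkpos : 0 < |(k l : ℝ)| := abs_pos.2 hkr
      have h5 : ‖mFourierCoeff f k‖ * |(k l : ℝ)|^N ≤ M := by
        have h6 : 2^N * ‖mFourierCoeff f k‖ * (2 * |(k l : ℝ)|)^N ≤ M := by
          rw [one_div, inv_pow, ← div_eq_mul_inv, le_div_iff₀ (by positivity)] at h2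
          exact h2
        have h7 : (1:ℝ) ≤ 2^N := one_le_pow₀ (by norm_num)
        rw [mul_pow] at h6
        have h8 : 0 ≤ ‖mFourierCoeff f k‖ * |(k l : ℝ)|^N := by positivity
        have h9 : ‖mFourierCoeff f k‖ * |(k l : ℝ)|^N ≤
            (2^N * 2^N) * (‖mFourierCoeff f k‖ * |(k l : ℝ)|^N) := by
          have : (1:ℝ) ≤ 2^N * 2^N := by nlinarith
          nlinarith
        linarith
      exact h5.trans (le_max_left _ _)
  choose M hM0 hM using hl
  obtain ⟨M', hM'⟩ := per_bounded hf.continuous hP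
  refine ⟨∑ l, M l + |M'|, by
    have := Finset.sum_nonneg (fun l (_ : l ∈ Finset.univ) => hM0 l); positivity, fun k => ?_⟩
  have hSM := Finset.sum_nonneg (fun l (_ : l ∈ Finset.univ) => hM0 l)
  rcases isEmpty_or_nonempty (Fin d) with hE | hE
  · have h0 : k = 0 := Subsingleton.elim _ _
    have h1 : ‖mFourierCoeff f k‖ ≤ M' := coeff_bound (fun t => by
        obtain ⟨x, rfl⟩ := pr_surj t
        exact hM' x) k
    have h2 : ‖k‖^N ≤ 1 := by
      rw [h0, norm_zero]
      rcases Nat.eq_zero_or_pos N with h | h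
      · subst h; simp
      · simp [zero_pow h.ne']
    calc ‖mFourierCoeff f k‖ * ‖k‖^N ≤ ‖mFourierCoeff f k‖ * 1 :=
          mul_le_mul_of_nonneg_left h2 (norm_nonneg _)
      _ ≤ ∑ l, M l + |M'| := by rw [mul_one]; linarith [le_abs_self M']
  · obtain ⟨l, hl⟩ : ∃ l, ‖k l‖ = ‖k‖ := by
      obtain ⟨l, hl⟩ := Finite.exists_max (fun l => ‖k l‖)
      refine ⟨l, le_antisymm (norm_le_pi_norm k l) ?_⟩
      exact (pi_norm_le_iff_of_nonneg (norm_nonneg _)).2 hl
    rw [← hl, Int.norm_eq_abs]
    have h1 := hM l k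
    have h2 : M l ≤ ∑ l, M l := Finset.single_le_sum (fun l _ => hM0 l) (Finset.mem_univ l)
    linarith [abs_nonneg M']

end Pool.Agent.Q67.BC
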