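import Mathlib

/-!
# The binomial averaging kernel
-/

namespace Pool.Agent.Q67.BC

open Finset

/-- the binomial kernel -/
noncomputable def bk (M n : ℕ) : ℝ := (Nat.choose (2*M) (M+n) : ℝ) / 4^M

/-- its differences -/
noncomputable def dk (M n : ℕ) : ℝ := bk M n - bk M (n+1)

lemma bk_nonneg (M n : ℕ) : 0 ≤ bk M n := by unfold bk; positivity

lemma bk_zero_of_lt {M n : ℕ} (h : M < n) : bk M n = 0 := by
  unfold bk; rw [Nat.choose_eq_zero_of_lt (by omega)]; simp

lemma bk_succ (M n : ℕ) (h : n ≤ M) : bk M (n+1) * (M + n + 1) = bk M n * (M - n) := by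
  unfold bk
  have h1 := Nat.choose_succ_right_eq (2*M) (M+n)
  have h2 : 2*M - (M+n) = M - n := by omega
  rw [h2] at h1
  have h3 : (Nat.choose (2*M) (M+n+1) : ℝ) * (M + n + 1) = Nat.choose (2*M) (M+n) * (M - n) := by
    have : ((Nat.choose (2*M) (M+n+1) * (M+n+1) : ℕ) : ℝ) = ((Nat.choose (2*M) (M+n) * (M - n) : ℕ) : ℝ) := by
      exact_mod_cast h1
    push_cast [Nat.cast_sub h] at this
    exact this
  rw [div_mul_eq_mul_div, div_mul_eq_mul_div]
  congr 1

lemma dk_eq (M n : ℕ) : dk M n * (M + n + 1) = bk M n * (2*n+1) := by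
  unfold dk
  rcases le_or_gt n M with h | h
  · have := bk_succ M n h
    rw [sub_mul, this]; ring
  · rw [bk_zero_of_lt h, bk_zero_of_lt (by omega)]; ring

lemma dk_nonneg (M n : ℕ) : 0 ≤ dk M n := by
  have h1 := dk_eq M n
  have h2 := bk_nonneg M n
  have h3 : (0:ℝ) < M + n + 1 := by positivity
  by_contra h
  push Not at h
  have : dk M n * (M + n + 1) < 0 := mul_neg_of_neg_of_pos h h3
  have : 0 ≤ bk M n * (2*n+1) := by positivity
  linarith

lemma dk_zero_of_lt {M n : ℕ} (h : M < n) : dk M n = 0 := by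
  unfold dk; rw [bk_zero_of_lt h, bk_zero_of_lt (by omega)]; ring

lemma bk_step (M n : ℕ) (h : n ≤ M) :
    bk (M+1) n * (2 * ((M + 1 + n) * (M + 1 - n))) = bk M n * ((M + 1) * (2*M + 1)) := by
  unfold bk
  have e : ((Nat.choose (2*(M+1)) (M+1+n) : ℕ) : ℝ) * ((M + 1 + n) * (M + 1 - n)) =
      Nat.choose (2*M) (M+n) * ((2*M+2) * (2*M+1)) := by
    have h1 := Nat.add_one_mul_choose_eq (2*M+1) (M+n)
    have h2 : (2*M+1+1) = 2*(M+1) := by ring
    have h3 : M + n + 1 = M+1+n := by ring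
    rw [h2, h3] at h1
    -- h1 : 2(M+1) * choose (2M+1) (M+n) = choose (2(M+1)) (M+1+n) * (M+1+n)
    have h4 : (Nat.choose (2*M+1) (M+n) : ℝ) * (M + 1 - n) = Nat.choose (2*M) (M+n) * (2*M+1) := by
      have h5 := Nat.add_one_mul_choose_eq (2*M) (M - n)
      have h6 : Nat.choose (2*M) (M-n) = Nat.choose (2*M) (M+n) := by
        rw [← Nat.choose_symm (by omega : M + n ≤ 2*M)]; congr 1; omega
      have h7 : Nat.choose (2*M+1) (M-n+1) = Nat.choose (2*M+1) (M+n) := by
        rw [← Nat.choose_symm (by omega : M + n ≤ 2*M+1)]; congr 1; omega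
      rw [h6, h7] at h5
      have h8 : (((2*M+1) * Nat.choose (2*M) (M+n) : ℕ) : ℝ) =
          ((Nat.choose (2*M+1) (M+n) * (M - n + 1) : ℕ) : ℝ) := by exact_mod_cast h5
      push_cast [Nat.cast_sub h] at h8
      linarith
    have h9 : ((2*(M+1) * Nat.choose (2*M+1) (M+n) : ℕ) : ℝ) =
        ((Nat.choose (2*(M+1)) (M+1+n) * (M+1+n) : ℕ) : ℝ) := by exact_mod_cast h1
    push_cast at h9
    calc ((Nat.choose (2*(M+1)) (M+1+n) : ℕ) : ℝ) * ((M + 1 + n) * (M + 1 - n))
        = (Nat.choose (2*(M+1)) (M+1+n) * (M+1+n)) * (M + 1 - n) := by ring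
      _ = (2*(M+1) * Nat.choose (2*M+1) (M+n)) * (M + 1 - n) := by rw [h9]
      _ = 2*(M+1) * (Nat.choose (2*M+1) (M+n) * (M + 1 - n)) := by ring
      _ = _ := by rw [h4]; ring
  rw [div_mul_eq_mul_div, div_mul_eq_mul_div, div_eq_div_iff (by positivity) (by positivity)]
  rw [pow_succ]
  calc ((Nat.choose (2*(M+1)) (M+1+n) : ℕ) : ℝ) * (2 * ((M + 1 + n) * (M + 1 - n))) * 4^M
      = 2 * (((Nat.choose (2*(M+1)) (M+1+n) : ℕ) : ℝ) * ((M + 1 + n) * (M + 1 - n))) * 4^M := by ring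
    _ = _ := by rw [e]; ring

lemma dk_step (M n : ℕ) (hM : 1 ≤ M) : (M:ℝ)^2 * dk M n ≤ ((M+1 : ℕ):ℝ)^2 * dk (M+1) n := by
  rcases le_or_gt n M with h | h
  · have h1 := dk_eq M n
    have h2 := dk_eq (M+1) n
    have h3 := bk_step M n h
    have hMr : (1:ℝ) ≤ M := by exact_mod_cast hM
    have hn : (n:ℝ) ≤ M := by exact_mod_cast h
    have hn0 : (0:ℝ) ≤ n := by positivity
    have hd := dk_nonneg M n
    push_cast at h2 ⊢
    -- dk (M+1) n * (M+n+2) * 2 (M+1+n)(M+1-n) = dk M n (M+n+1) (M+1)(2M+1)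
    have e : dk (M+1) n * ((M + n + 2) * (2 * (M + 1 - n))) * (M + 1 + n) =
        dk M n * ((M+1) * (2*M+1)) * (M + 1 + n) := by
      have e1 : dk (M+1) n * (M + 1 + n + 1) = bk (M+1) n * (2*n+1) := by
        rw [← h2]
      calc dk (M+1) n * ((M + n + 2) * (2 * (M + 1 - n))) * (M + 1 + n)
          = (dk (M+1) n * (M + 1 + n + 1)) * (2 * ((M + 1 + n) * (M + 1 - n))) := by ring
        _ = (2*n+1) * (bk (M+1) n * (2 * ((M + 1 + n) * (M + 1 - n)))) := by rw [e1]; ring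
        _ = (2*n+1) * (bk M n * ((M + 1) * (2*M + 1))) := by rw [h3]
        _ = (bk M n * (2*n+1)) * ((M + 1) * (2*M + 1)) := by ring
        _ = _ := by rw [← h1]; ring
    have e' : dk (M+1) n * ((M + n + 2) * (2 * (M + 1 - n))) = dk M n * ((M+1) * (2*M+1)) :=
      mul_right_cancel₀ (by positivity) e
    have hpos : (0:ℝ) < (M + n + 2) * (2 * (M + 1 - n)) := by
      apply mul_pos (by positivity); linarith
    have hle : (M:ℝ)^2 * ((M + n + 2) * (2 * (M + 1 - n))) ≤ (M+1)^2 * ((M+1) * (2*M+1)) := by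
      nlinarith [mul_nonneg hn0 hn0, mul_nonneg hn0 (by linarith : (0:ℝ) ≤ M), sq_nonneg (M:ℝ)]
    have : (M:ℝ)^2 * dk M n * ((M + n + 2) * (2 * (M + 1 - n))) ≤
        (M+1)^2 * dk (M+1) n * ((M + n + 2) * (2 * (M + 1 - n))) := by
      calc (M:ℝ)^2 * dk M n * ((M + n + 2) * (2 * (M + 1 - n)))
          = dk M n * ((M:ℝ)^2 * ((M + n + 2) * (2 * (M + 1 - n)))) := by ring
        _ ≤ dk M n * ((M+1)^2 * ((M+1) * (2*M+1))) := mul_le_mul_of_nonneg_left hle hd
        _ = (M+1)^2 * (dk M n * ((M+1) * (2*M+1))) := by ring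
        _ = _ := by rw [← e']; ring
    exact le_of_mul_le_mul_right this hpos
  · rw [dk_zero_of_lt h, mul_zero]
    have := dk_nonneg (M+1) n
    positivity

/-- comparison of the kernels -/
lemma dk_mono {M₁ M : ℕ} (h1 : 1 ≤ M₁) (h : M₁ ≤ M) (n : ℕ) :
    (M₁:ℝ)^2 * dk M₁ n ≤ (M:ℝ)^2 * dk M n := by
  induction M, h using Nat.le_induction with
  | base => exact le_rfl
  | succ M hM ih => exact ih.trans (dk_step M n (h1.trans hM))

lemma bk_zero_lower {M : ℕ} (hM : 1 ≤ M) : 1 / (2*M) ≤ bk M 0 := by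
  unfold bk
  have h := Nat.four_pow_le_two_mul_self_mul_centralBinom M hM
  have h1 : ((4:ℝ)^M) ≤ 2 * M * (Nat.choose (2*M) M) := by
    have : ((4^M : ℕ) : ℝ) ≤ ((2 * M * Nat.centralBinom M : ℕ) : ℝ) := by exact_mod_cast h
    push_cast at this
    rwa [Nat.centralBinom_eq_two_mul_choose] at this
  rw [add_zero, div_le_div_iff₀ (by positivity) (by positivity)]
  linarith

lemma bk_anti (M n : ℕ) : bk M (n+1) ≤ bk M n := by
  have := dk_nonneg M n
  unfold dk at this; linarith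

lemma bk_le_zero (M n : ℕ) : bk M n ≤ bk M 0 := by
  induction n with
  | zero => exact le_rfl
  | succ n ih => exact (bk_anti M n).trans ih

lemma bk_lower (M n : ℕ) : bk M 0 * (1 - n^2 / (M+1)) ≤ bk M n := by
  induction n with
  | zero => simp
  | succ n ih =>
    have h1 := dk_eq M n
    have h2 : dk M n ≤ bk M 0 * ((2*n+1) / (M+1)) := by
      have h3 : dk M n = bk M n * (2*n+1) / (M + n + 1) := by
        rw [eq_div_iff (by positivity)]; exact h1
      rw [h3, mul_div_assoc]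
      apply mul_le_mul (bk_le_zero M n) _ (by positivity) (bk_nonneg M 0)
      apply div_le_div_of_nonneg_left (by positivity) (by positivity)
      have : (0:ℝ) ≤ n := by positivity
      linarith
    have h4 : bk M (n+1) = bk M n - dk M n := by unfold dk; ring
    rw [h4]
    have e : bk M 0 * (1 - ((n+1 : ℕ):ℝ)^2 / (M+1)) =
        bk M 0 * (1 - n^2 / (M+1)) - bk M 0 * ((2*n+1) / (M+1)) := by
      push_cast; field_simp; ring
    rw [e]; linarith

/-- the average of `U` against the differences -/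
noncomputable def hk (U : ℕ → ℝ) (M : ℕ) : ℝ := ∑ n ∈ range (M+1), dk M n * U n

lemma sum_dk (M n : ℕ) : ∑ i ∈ range n, dk M i = bk M 0 - bk M n := by
  induction n with
  | zero => simp
  | succ n ih => rw [sum_range_succ, ih]; unfold dk; ring

lemma sum_symm (g : ℤ → ℝ) (M : ℕ) :
    ∑ i ∈ range (2*M+1), g (i - M) = g 0 + ∑ n ∈ range M, (g (n+1) + g (-(n+1))) := by
  induction M with
  | zero => simp
  | succ M ih =>
    rw [show 2*(M+1)+1 = (2*M+1)+1+1 by ring, sum_range_succ, sum_range_succ']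
    have e : ∀ i : ℕ, g (((i+1 : ℕ) : ℤ) - ((M+1 : ℕ) : ℤ)) = g ((i:ℤ) - M) := by
      intro i; congr 1; push_cast; ring
    simp_rw [e]
    rw [ih, sum_range_succ]
    have e1 : (((2*M+1 : ℕ)) : ℤ) - (M : ℤ) = M + 1 := by push_cast; ring
    have e2 : (((0 : ℕ)) : ℤ) - ((M+1 : ℕ) : ℤ) = -((M:ℤ)+1) := by push_cast; ring
    rw [e1, e2]; ring

/-- Abel summation -/
lemma abel (f : ℕ → ℝ) (v : ℕ → ℝ) (M : ℕ) :
    ∑ n ∈ range (M+1), f n * v n =
      ∑ n ∈ range (M+1), (f n - f (n+1)) * (∑ j ∈ range (n+1), v j) +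
        f (M+1) * ∑ j ∈ range (M+1), v j := by
  induction M with
  | zero => simp; ring
  | succ M ih =>
    rw [sum_range_succ, ih,
      sum_range_succ (fun n => (f n - f (n+1)) * (∑ j ∈ range (n+1), v j)) (M+1),
      sum_range_succ v (M+1)]
    ring

/-- the kernel average in terms of symmetric partial sums -/
lemma hk_eq (a : ℤ → ℝ) (U : ℕ → ℝ)
    (hU : ∀ n, U n = a 0 + ∑ j ∈ range n, (a (j+1) + a (-(j+1)))) (M : ℕ) :
    hk U M = ∑ i ∈ range (2*M+1), (Nat.choose (2*M) i : ℝ) / 4^M * a (i - M) := by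
  -- both sides through the folded sequence
  let v : ℕ → ℝ := fun n => if n = 0 then a 0 else a n + a (-n)
  have hv : ∀ n, ∑ j ∈ range (n+1), v j = U n := by
    intro n
    rw [hU, sum_range_succ']
    have : v 0 = a 0 := by simp [v]
    rw [this, add_comm]
    congr 1
  have h1 : hk U M = ∑ n ∈ range (M+1), bk M n * v n := by
    rw [abel (bk M) v M, bk_zero_of_lt (Nat.lt_succ_self M), zero_mul, add_zero]
    unfold hk
    refine sum_congr rfl (fun n _ => ?_)
    rw [hv]; rfl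
  rw [h1]
  have h2 := sum_symm (fun j : ℤ => bk M j.natAbs * a j) M
  have h3 : ∑ i ∈ range (2*M+1), (Nat.choose (2*M) i : ℝ) / 4^M * a (i - M) =
      ∑ i ∈ range (2*M+1), bk M ((i:ℤ) - M).natAbs * a (i - M) := by
    refine sum_congr rfl (fun i hi => ?_)
    rw [mem_range] at hi
    congr 1
    unfold bk
    congr 2
    rcases le_total M i with h | h
    · have : M + ((i:ℤ) - M).natAbs = i := by omega
      rw [this]
    · have : M + ((i:ℤ) - M).natAbs = 2*M - i := by omega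
      rw [this, Nat.choose_symm (by omega)]
  rw [h3, h2, sum_range_succ']
  have : v 0 = a 0 := by simp [v]
  rw [this, add_comm]
  simp only [Int.natAbs_zero]
  congr 1
  refine sum_congr rfl (fun j _ => ?_)
  simp only [v, Nat.succ_ne_zero, if_false]
  have e1 : ((j:ℤ)+1).natAbs = j+1 := by omega
  have e2 : (-((j:ℤ)+1)).natAbs = j+1 := by omega
  rw [e1, e2]
  push_cast; ring

/-- the kernel on a character -/
lemma kernel_char (z : ℂ) (hz : ‖z‖ = 1) (M : ℕ) :
    ∑ i ∈ range (2*M+1), ((Nat.choose (2*M) i : ℂ) / 4^M) * z^((i:ℤ) - M) =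
      (((2 + z + z⁻¹)/4)^M) := by
  have hz0 : z ≠ 0 := by intro h; rw [h] at hz; simp at hz
  have h1 : ((2 + z + z⁻¹)/4)^M = ((1 + z)^(2*M) * (z^M)⁻¹) / 4^M := by
    rw [pow_mul, div_pow]
    congr 1
    have : (2 + z + z⁻¹) = (1+z)^2 * z⁻¹ := by field_simp; ring
    rw [this, mul_pow, inv_pow]
  rw [h1, add_comm 1 z, add_pow, sum_mul, sum_div]
  refine sum_congr rfl (fun i _ => ?_)
  rw [zpow_sub₀ hz0, zpow_natCast, zpow_natCast, one_pow]
  field_simp

end Pool.Agent.Q67.BC
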