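import Pool.Agent.Q67.BC.Drift

/-!
# The multiscale process
-/

namespace Pool.Agent.Q67.BC

open Finset Real Filter Topology

variable {d : ℕ}

/-- the sequence of parameters -/
noncomputable def YZ (F Θ : ℝ) (K : ℝ) : ℕ → ℝ × ℝ
  | 0 => (8 * Θ * (384 * F * Θ * K), 384 * F * Θ * K)
  | i+1 => (4096 * Θ^2 * F^2 * (196608 * F^3 * Θ^2 * (YZ F Θ K i).1^3)^2 * (YZ F Θ K i).1^3,
      196608 * F^3 * Θ^2 * (YZ F Θ K i).1^3)

lemma YZ_facts {F Θ K : ℝ} (hF : 1 ≤ F) (hΘ : 1 ≤ Θ) (hK : 1 ≤ K) (i : ℕ) :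
    1 ≤ (YZ F Θ K i).2 ∧ (YZ F Θ K i).2 ≤ (YZ F Θ K i).1 ∧
      (YZ F Θ K i).1 ≤ (YZ F Θ K (i+1)).1 ∧ (YZ F Θ K i).2 ≤ (YZ F Θ K (i+1)).2 := by
  have key : ∀ i, 1 ≤ (YZ F Θ K i).2 ∧ (YZ F Θ K i).2 ≤ (YZ F Θ K i).1 := by
    intro i
    induction i with
    | zero =>
      simp only [YZ]
      have h1 : 1 ≤ F * Θ * K := by
        have := one_le_mul_of_one_le_of_one_le (one_le_mul_of_one_le_of_one_le hF hΘ) hK
        exact this
      constructor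
      · nlinarith
      · have : 0 ≤ 384 * F * Θ * K := by positivity
        nlinarith
    | succ i ih =>
      simp only [YZ]
      obtain ⟨h1, h2⟩ := ih
      set Y := (YZ F Θ K i).1 with hY
      have hY1 : 1 ≤ Y := h1.trans h2
      have hY3 : 1 ≤ Y^3 := one_le_pow₀ hY1
      have hF3 : 1 ≤ F^3 := one_le_pow₀ hF
      have hΘ2 : 1 ≤ Θ^2 := one_le_pow₀ hΘ
      have hF2 : 1 ≤ F^2 := one_le_pow₀ hF
      have ha : 1 ≤ F^3 * Θ^2 * Y^3 := by
        exact one_le_mul_of_one_le_of_one_le (one_le_mul_of_one_le_of_one_le hF3 hΘ2) hY3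
      have hz : 1 ≤ 196608 * F^3 * Θ^2 * Y^3 := by nlinarith
      refine ⟨hz, ?_⟩
      set Z := 196608 * F^3 * Θ^2 * Y^3 with hZ
      have hc : 1 ≤ Θ^2 * F^2 * Y^3 :=
        one_le_mul_of_one_le_of_one_le (one_le_mul_of_one_le_of_one_le hΘ2 hF2) hY3
      have : 4096 * Θ^2 * F^2 * Z^2 * Y^3 = (4096 * (Θ^2 * F^2 * Y^3)) * Z^2 := by ring
      rw [this]
      have hZZ : Z ≤ Z^2 := by nlinarith
      nlinarith
  obtain ⟨h1, h2⟩ := key i
  refine ⟨h1, h2, ?_, ?_⟩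
  · obtain ⟨h3, h4⟩ := key (i+1)
    simp only [YZ]
    set Y := (YZ F Θ K i).1 with hY
    have hY1 : 1 ≤ Y := h1.trans h2
    have hY3 : 1 ≤ Y^3 := one_le_pow₀ hY1
    have hF3 : 1 ≤ F^3 := one_le_pow₀ hF
    have hΘ2 : 1 ≤ Θ^2 := one_le_pow₀ hΘ
    have hF2 : 1 ≤ F^2 := one_le_pow₀ hF
    have hYY : Y ≤ Y^3 := by nlinarith [sq_nonneg Y, mul_le_mul hY1 hY1 (by norm_num) (by linarith)]
    have ha : 1 ≤ F^3 * Θ^2 * Y^3 :=
      one_le_mul_of_one_le_of_one_le (one_le_mul_of_one_le_of_one_le hF3 hΘ2) hY3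
    have hz : 1 ≤ 196608 * F^3 * Θ^2 * Y^3 := by nlinarith
    set Z := 196608 * F^3 * Θ^2 * Y^3 with hZ
    have hZ2 : 1 ≤ Z^2 := one_le_pow₀ hz
    have hc : 1 ≤ Θ^2 * F^2 * Z^2 :=
        one_le_mul_of_one_le_of_one_le (one_le_mul_of_one_le_of_one_le hΘ2 hF2) hZ2
    have : 4096 * Θ^2 * F^2 * Z^2 * Y^3 = (4096 * (Θ^2 * F^2 * Z^2)) * Y^3 := by ring
    rw [this]
    nlinarith
  · simp only [YZ]
    set Y := (YZ F Θ K i).1 with hY
    have hY1 : 1 ≤ Y := h1.trans h2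
    have hYY : Y ≤ Y^3 := by nlinarith [sq_nonneg Y, mul_le_mul hY1 hY1 (by norm_num) (by linarith)]
    have hF3 : 1 ≤ F^3 := one_le_pow₀ hF
    have hΘ2 : 1 ≤ Θ^2 := one_le_pow₀ hΘ
    have hc : 1 ≤ F^3 * Θ^2 := one_le_mul_of_one_le_of_one_le hF3 hΘ2
    have : 196608 * F^3 * Θ^2 * Y^3 = (196608 * (F^3 * Θ^2)) * Y^3 := by ring
    rw [this]
    nlinarith

lemma cube_le_exp {x : ℝ} (hx : 0 ≤ x) : x^3 / 6 ≤ exp x := by
  have := pow_div_factorial_le_exp x hx 3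
  simpa [Nat.factorial] using this

/-- the exponential smallness -/
lemma YZ_exp {F Θ K : ℝ} (hF : 1 ≤ F) (hΘ : 1 ≤ Θ) (hK : 1 ≤ K) (i : ℕ) :
    8 * F * (YZ F Θ K i).1 * exp (-(YZ F Θ K i).2) ≤ 1 := by
  have h1 := (YZ_facts hF hΘ hK i).1
  have h3 : 8 * F * (YZ F Θ K i).1 ≤ (YZ F Θ K i).2^3 / 6 := by
    cases i with
    | zero =>
      simp only [YZ]
      set Z := 384 * F * Θ * K with hZ
      have hZ0 : 0 < Z := by positivity
      have h4 : 384 * (F * Θ) ≤ Z := by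
        rw [hZ]
        have : 0 < F * Θ := by positivity
        nlinarith
      have h5 : Z ≤ Z^2 := by
        have : 1 ≤ Z := by
          have : 1 ≤ F * Θ := one_le_mul_of_one_le_of_one_le hF hΘ
          linarith
        nlinarith
      have h6 : 384 * (F * Θ) * Z ≤ Z^2 * Z := by
        apply mul_le_mul_of_nonneg_right _ hZ0.le; linarith
      nlinarith
    | succ i =>
      simp only [YZ]
      set Y := (YZ F Θ K i).1 with hY
      have : 8 * F * (4096 * Θ ^ 2 * F ^ 2 * (196608 * F ^ 3 * Θ ^ 2 * Y ^ 3) ^ 2 * Y ^ 3) =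
        (196608 * F ^ 3 * Θ ^ 2 * Y ^ 3) ^ 3 / 6 := by ring
      rw [this]
  have h4 := cube_le_exp (by linarith : 0 ≤ (YZ F Θ K i).2)
  calc 8 * F * (YZ F Θ K i).1 * exp (-(YZ F Θ K i).2)
      ≤ exp ((YZ F Θ K i).2) * exp (-(YZ F Θ K i).2) :=
        mul_le_mul_of_nonneg_right (h3.trans h4) (exp_pos _).le
    _ = 1 := by rw [← exp_add]; simp

/-- the statement carried by the process -/
def Pst (α : Fin d → ℝ) (h : ℕ → ℝ) (F : ℝ) (K M₀ i : ℕ) : Prop :=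
  ∃ M : ℕ, M₀ ≤ M ∧ 1 ≤ M ∧ 1 ≤ (YZ F (TT d K) K i).1 * h M ∧
    (TT d K : ℝ) * (YZ F (TT d K) K i).2 ≤ M ∧
    ∃ k : Fin i → (Fin d → ℤ), (∀ j, k j ≠ 0) ∧ (∀ j l, |k j l| ≤ K) ∧
      (∀ j, (TT d K : ℝ) * ss α (k j) ≤ 1) ∧
      (∀ j j', j < j' → (TT d K : ℝ) * ss α (k j') ≤ ss α (k j)) ∧
      (∀ j, (TT d K : ℝ) * (YZ F (TT d K) K i).2 ≤ M * ss α (k j))

lemma finite_ball (K : ℕ) : {k : Fin d → ℤ | ‖k‖ ≤ K}.Finite := by
  have : {k : Fin d → ℤ | ‖k‖ ≤ K} = Metric.closedBall 0 K := by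
    ext k; simp
  rw [this]
  exact (isCompact_closedBall _ _).finite_of_discrete

lemma coord_le {k : Fin d → ℤ} {K : ℕ} (h : ‖k‖ ≤ K) (l : Fin d) : |k l| ≤ K := by
  have h1 := (norm_le_pi_norm k l).trans h
  rw [Int.norm_eq_abs] at h1
  exact_mod_cast h1

lemma proc_zero {α : Fin d → ℝ} {h : ℕ → ℝ} {F : ℝ} (hF : 1 ≤ F) {K M₀ : ℕ} (hK : 1 ≤ K)
    (hlow : ∀ M, M₀ ≤ M → 1 / (4*M) ≤ h M) (hKM : M₀ ≤ K) : Pst α h F K M₀ 0 := by
  have hΘ : (1:ℝ) ≤ TT d K := by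
    have := TT_ge (d := d) hK
    exact_mod_cast (by omega : 1 ≤ TT d K)
  have hKr : (1:ℝ) ≤ K := by exact_mod_cast hK
  obtain ⟨h1, h2, _, _⟩ := YZ_facts hF hΘ hKr 0
  set Θ : ℝ := ((TT d K : ℕ) : ℝ) with hΘd
  have hx1 : 1 ≤ Θ * (YZ F Θ K 0).2 := one_le_mul_of_one_le_of_one_le hΘ h1
  have hceil := Nat.le_ceil (Θ * (YZ F Θ K 0).2)
  have hceil2 := Nat.ceil_lt_add_one (by linarith : 0 ≤ Θ * (YZ F Θ K 0).2)
  have hKle : (K:ℝ) ≤ Θ * (YZ F Θ K 0).2 := by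
    simp only [YZ]
    have : 1 ≤ Θ * (F * Θ) := one_le_mul_of_one_le_of_one_le hΘ (one_le_mul_of_one_le_of_one_le hF hΘ)
    nlinarith
  refine ⟨⌈Θ * (YZ F Θ K 0).2⌉₊, ?_, ?_, ?_, hceil, Fin.elim0, ?_, ?_, ?_, ?_, ?_⟩
  · have : (M₀:ℝ) ≤ ⌈Θ * (YZ F Θ K 0).2⌉₊ := by
      have : (M₀:ℝ) ≤ K := by exact_mod_cast hKM
      linarith
    exact_mod_cast this
  · have : (1:ℝ) ≤ ⌈Θ * (YZ F Θ K 0).2⌉₊ := by linarith
    exact_mod_cast this
  · have hM : M₀ ≤ ⌈Θ * (YZ F Θ K 0).2⌉₊ := by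
      have : (M₀:ℝ) ≤ ⌈Θ * (YZ F Θ K 0).2⌉₊ := by
        have : (M₀:ℝ) ≤ K := by exact_mod_cast hKM
        linarith
      exact_mod_cast this
    have h3 := hlow _ hM
    set M : ℝ := (⌈Θ * (YZ F Θ K 0).2⌉₊ : ℝ) with hMd
    have hMpos : 0 < M := by linarith
    rw [div_le_iff₀ (by positivity)] at h3
    have h4 : 4 * M ≤ (YZ F Θ K 0).1 := by
      have e : (YZ F Θ K 0).1 = 8 * (Θ * (YZ F Θ K 0).2) := by simp only [YZ]; ring
      rw [e]; linarith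
    have h5 : 0 ≤ h ⌈Θ * (YZ F Θ K 0).2⌉₊ := by
      by_contra hneg
      push Not at hneg
      nlinarith
    nlinarith
  · intro j; exact j.elim0
  · intro j; exact j.elim0
  · intro j; exact j.elim0
  · intro j; exact j.elim0
  · intro j; exact j.elim0

lemma proc_step {α : Fin d → ℝ} (hirr : ∀ k : Fin d → ℤ, k ≠ 0 → eta α k ≠ 0)
    {g : (Fin d → ℤ) → ℝ} (hg0 : g 0 = 0)
    (hg : Summable (fun k => |g k|)) {F : ℝ} (hF1 : 1 ≤ F) (hF : ∑' k, |g k| ≤ F) {h : ℕ → ℝ}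
    (hspec : ∀ M, h M = ∑' k, g k * (1 - ss α k)^M) {K M₀ : ℕ} (hK : 1 ≤ K)
    (hcomp : ∀ M₁ M : ℕ, M₀ ≤ M₁ → M₁ ≤ M → (M₁:ℝ)^2 * h M₁ ≤ 2 * (M:ℝ)^2 * h M)
    {i : ℕ} (htail : 8 * (YZ F (TT d K) K i).1 * tl g K ≤ 1) (hP : Pst α h F K M₀ i) :
    Pst α h F K M₀ (i+1) := by
  have hΘ : (1:ℝ) ≤ TT d K := by
    have := TT_ge (d := d) hK
    exact_mod_cast (by omega : 1 ≤ TT d K)
  have hKr : (1:ℝ) ≤ K := by exact_mod_cast hK
  obtain ⟨hZ1, hZY, hYY, hZZ⟩ := YZ_facts hF1 hΘ hKr i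
  obtain ⟨hZ1', hZY', _, _⟩ := YZ_facts hF1 hΘ hKr (i+1)
  have hexp := YZ_exp hF1 hΘ hKr i
  unfold Pst at hP ⊢
  set Θ : ℝ := ((TT d K : ℕ) : ℝ) with hΘd
  set Y := (YZ F Θ K i).1 with hY
  set Z := (YZ F Θ K i).2 with hZ
  set Y' := (YZ F Θ K (i+1)).1 with hY'
  set Z' := (YZ F Θ K (i+1)).2 with hZ'
  have hYrec : Y' = 4096 * Θ^2 * F^2 * Z'^2 * Y^3 := rfl
  obtain ⟨M, hM0, hM1, hM2, hM3, k, hk0, hkK, hk1, hk2, hk3⟩ := hP
  have hMr : (1:ℝ) ≤ M := by exact_mod_cast hM1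
  have hMpos : (0:ℝ) < M := by linarith
  have hY1 : 1 ≤ Y := hZ1.trans hZY
  set σ := Z / M with hσ
  have hMσ : M * σ = Z := by rw [hσ]; field_simp
  have htl0 := tl_nonneg g K
  have hE : F * exp (-Z) ≤ 1 / (8*Y) := by
    rw [le_div_iff₀ (by positivity)]; linarith
  have hT : tl g K ≤ 1 / (8*Y) := by
    rw [le_div_iff₀ (by positivity)]; linarith
  -- there is a small resonance
  have hex : ∃ q : Fin d → ℤ, q ≠ 0 ∧ ‖q‖ ≤ K ∧ ss α q < σ := by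
    by_contra hcon
    push Not at hcon
    have h1 := spec_top hg0 hg hF hspec (K := K) (M := M) (σ := σ)
      (fun k hk hkK => hcon k hk hkK)
    rw [hMσ] at h1
    have h2 : h M ≤ 1 / (4*Y) := by
      have : (1:ℝ) / (4*Y) = 1/(8*Y) + 1/(8*Y) := by field_simp; norm_num
      rw [this]
      linarith [le_abs_self (h M)]
    have h3 : Y * h M ≤ Y * (1/(4*Y)) := mul_le_mul_of_nonneg_left h2 (by linarith)
    have h4 : Y * (1/(4*Y)) = 1/4 := by field_simp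
    linarith
  -- choose the largest
  have hfin : {q : Fin d → ℤ | q ≠ 0 ∧ ‖q‖ ≤ K ∧ ss α q < σ}.Finite :=
    (finite_ball K).subset (fun q hq => hq.2.1)
  obtain ⟨q, hq, hqmax⟩ := hfin.exists_maximalFor (ss α) _ hex
  obtain ⟨hq0, hqK, hqσ⟩ := hq
  set e := ss α q with he
  have hepos : 0 < e := ss_pos (hirr q hq0)
  have he1 : e ≤ 1 := ss_le_one α q
  have hdich : ∀ k : Fin d → ℤ, k ≠ 0 → ‖k‖ ≤ K → σ ≤ ss α k ∨ ss α k ≤ e := by
    intro k hk hkK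
    by_contra hcon
    push Not at hcon
    have := hqmax ⟨hk, hkK, hcon.1⟩ hcon.2.le
    exact absurd hcon.2 (not_lt.2 this)
  set y := 1 / (8 * F * Y * e) with hy
  have hypos : 0 < y := by positivity
  set M' := max M ⌊y⌋₊ with hM'
  have hMM' : M ≤ M' := le_max_left _ _
  have hM'pos : (1:ℝ) ≤ M' := by
    have : (M:ℝ) ≤ M' := by exact_mod_cast hMM'
    linarith
  have hfloor : (⌊y⌋₊ : ℝ) ≤ y := Nat.floor_le hypos.le
  have hM'low : 1 ≤ 2 * Y * h M' := by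
    rcases le_total ⌊y⌋₊ M with hle | hle
    · have : M' = M := max_eq_left hle
      rw [this]; nlinarith
    · have hM'e : M' = ⌊y⌋₊ := max_eq_right hle
      have h1 := spec_diff hg0 hg hF hspec hMM' hepos.le hdich
      rw [hMσ] at h1
      have h2 : (M':ℝ) * e ≤ 1 / (8*F*Y) := by
        rw [hM'e]
        calc (⌊y⌋₊ : ℝ) * e ≤ y * e := mul_le_mul_of_nonneg_right hfloor hepos.le
          _ = _ := by rw [hy]; field_simp
      have h3 : F * (exp (-Z) + M' * e) ≤ 1/(8*Y) + 1/(8*Y) := by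
        have h4 : F * (M' * e) ≤ F * (1 / (8*F*Y)) := mul_le_mul_of_nonneg_left h2 (by linarith)
        have h5 : F * (1 / (8*F*Y)) = 1/(8*Y) := by field_simp
        rw [mul_add]; linarith
      have h6 : h M - h M' ≤ 1/(8*Y) + 1/(8*Y) + 1/(8*Y) := by
        linarith [le_abs_self (h M - h M')]
      have h7 : Y * (h M - h M') ≤ Y * (1/(8*Y) + 1/(8*Y) + 1/(8*Y)) :=
        mul_le_mul_of_nonneg_left h6 (by linarith)
      have h8 : Y * (1/(8*Y) + 1/(8*Y) + 1/(8*Y)) = 3/8 := by field_simp; norm_num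
      rw [h8, mul_sub] at h7
      linarith
  have hM'half : y / 2 ≤ M' := by
    rcases le_total y 2 with hy2 | hy2
    · linarith
    · have h1 := Nat.lt_floor_add_one y
      have h2 : (⌊y⌋₊ : ℝ) ≤ M' := by exact_mod_cast (le_max_right M ⌊y⌋₊)
      linarith
  -- the next time
  have hΘZe : 1 ≤ Θ * Z' / e := by
    rw [le_div_iff₀ hepos]
    have : 1 ≤ Θ * Z' := one_le_mul_of_one_le_of_one_le hΘ hZ1'
    linarith
  set M'' := ⌈Θ * Z' / e⌉₊ with hM''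
  have hceil : Θ * Z' / e ≤ M'' := Nat.le_ceil _
  have hceil2 : (M'':ℝ) < Θ * Z' / e + 1 := Nat.ceil_lt_add_one (by linarith)
  have hM'M'' : M' ≤ M'' := by
    have h1 : (M:ℝ) ≤ M'' := by
      have h2 : (M:ℝ) * e ≤ Z := by
        rw [← hMσ]; exact mul_le_mul_of_nonneg_left hqσ.le hMpos.le
      have h3 : (M:ℝ) ≤ Θ * Z' / e := by
        rw [le_div_iff₀ hepos]
        nlinarith
      linarith
    have h2 : (⌊y⌋₊ : ℝ) ≤ M'' := by
      have h3 : y ≤ Θ * Z' / e := by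
        rw [hy, div_le_div_iff₀ (by positivity) hepos]
        have h4 : 1 ≤ 8 * F * Y := by
          have : 1 ≤ F * Y := one_le_mul_of_one_le_of_one_le hF1 hY1
          linarith
        have h5 : 1 ≤ Θ * Z' := one_le_mul_of_one_le_of_one_le hΘ hZ1'
        have h6 : 1 ≤ Θ * Z' * (8 * F * Y) := one_le_mul_of_one_le_of_one_le h5 h4
        nlinarith
      linarith
    rw [hM']
    apply max_le
    · exact_mod_cast h1
    · exact_mod_cast h2
  have hratio : (M'':ℝ) ≤ 32 * Θ * Z' * F * Y * M' := by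
    have h1 : (M'':ℝ) ≤ 2 * (Θ * Z' / e) := by linarith
    have h2 : Θ * Z' / e = Θ * Z' * (8 * F * Y) * y := by rw [hy]; field_simp
    have h3 : Θ * Z' * (8 * F * Y) * y ≤ Θ * Z' * (8 * F * Y) * (2 * M') :=
      mul_le_mul_of_nonneg_left (by linarith) (by positivity)
    rw [h2] at h1
    linarith
  have hfinal : 1 ≤ Y' * h M'' := by
    have h1 := hcomp M' M'' (hM0.trans hMM') hM'M''
    have hM'pos' : (0:ℝ) < M' := by linarith
    have h2 : (M'':ℝ)^2 ≤ (32 * Θ * Z' * F * Y * M')^2 :=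
      pow_le_pow_left₀ (by positivity) hratio 2
    have hh'' : 0 ≤ h M'' := by
      have h3 : 0 < h M' := by
        by_contra hneg
        push Not at hneg
        nlinarith
      have h4 : 0 < (M':ℝ)^2 * h M' := by positivity
      by_contra hneg
      push Not at hneg
      have : 2 * (M'':ℝ)^2 * h M'' ≤ 0 := by
        have : (0:ℝ) ≤ 2 * (M'':ℝ)^2 := by positivity
        nlinarith
      linarith
    have h3 : (M':ℝ)^2 * 1 ≤ (M':ℝ)^2 * (Y' * h M'') := by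
      calc (M':ℝ)^2 * 1 ≤ (M':ℝ)^2 * (2 * Y * h M') :=
            mul_le_mul_of_nonneg_left hM'low (by positivity)
        _ = 2 * Y * ((M':ℝ)^2 * h M') := by ring
        _ ≤ 2 * Y * (2 * (M'':ℝ)^2 * h M'') := mul_le_mul_of_nonneg_left h1 (by positivity)
        _ = (4 * Y * h M'') * (M'':ℝ)^2 := by ring
        _ ≤ (4 * Y * h M'') * (32 * Θ * Z' * F * Y * M')^2 :=
            mul_le_mul_of_nonneg_left h2 (by positivity)
        _ = (M':ℝ)^2 * (Y' * h M'') := by rw [hYrec]; ring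
    exact le_of_mul_le_mul_left h3 (by positivity)
  have hsnoc : ∀ j : Fin i, (Fin.snoc k q : Fin (i+1) → (Fin d → ℤ)) j.castSucc = k j :=
    fun j => Fin.snoc_castSucc (α := fun _ => Fin d → ℤ) q k j
  have hlast : (Fin.snoc k q : Fin (i+1) → (Fin d → ℤ)) (Fin.last i) = q :=
    Fin.snoc_last (α := fun _ => Fin d → ℤ) q k
  have hΘe : Θ * e ≤ 1 := by
    have h1 : e ≤ Z / M := hqσ.le
    have h2 : Θ * e ≤ Θ * (Z / M) := mul_le_mul_of_nonneg_left h1 (by linarith)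
    have h3 : Θ * (Z / M) ≤ 1 := by
      rw [← mul_div_assoc, div_le_one hMpos]; exact hM3
    linarith
  have hΘek : ∀ j, Θ * e ≤ ss α (k j) := by
    intro j
    have h1 : e ≤ Z / M := hqσ.le
    have h2 : Θ * e ≤ Θ * (Z / M) := mul_le_mul_of_nonneg_left h1 (by linarith)
    have h3 : Θ * (Z / M) ≤ ss α (k j) := by
      rw [← mul_div_assoc, div_le_iff₀ hMpos]
      linarith [hk3 j]
    linarith
  have hΘZM : Θ * Z' ≤ M'' * e := by
    rw [← div_le_iff₀ hepos]; exact hceil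
  refine ⟨M'', hM0.trans (hMM'.trans hM'M''), ?_, hfinal, ?_, Fin.snoc k q, ?_, ?_, ?_, ?_, ?_⟩
  · have : (1:ℝ) ≤ M'' := by linarith
    exact_mod_cast this
  · have : (M'':ℝ) * e ≤ M'' * 1 := mul_le_mul_of_nonneg_left he1 (by positivity)
    linarith
  · intro j
    refine Fin.lastCases ?_ (fun j => ?_) j
    · rw [hlast]; exact hq0
    · rw [hsnoc]; exact hk0 j
  · intro j
    refine Fin.lastCases ?_ (fun j => ?_) j
    · rw [hlast]; exact coord_le hqK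
    · rw [hsnoc]; exact hkK j
  · intro j
    refine Fin.lastCases ?_ (fun j => ?_) j
    · rw [hlast]; exact hΘe
    · rw [hsnoc]; exact hk1 j
  · intro j j'
    refine Fin.lastCases ?_ (fun j' => ?_) j'
    · refine Fin.lastCases ?_ (fun j => ?_) j
      · intro h; exact absurd h (lt_irrefl _)
      · intro _; rw [hlast, hsnoc]; exact hΘek j
    · refine Fin.lastCases ?_ (fun j => ?_) j
      · intro h
        exact absurd h (not_lt.2 (Fin.le_last _))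
      · intro h
        rw [hsnoc, hsnoc]
        exact hk2 j j' (by simpa using h)
  · intro j
    refine Fin.lastCases ?_ (fun j => ?_) j
    · rw [hlast]; exact hΘZM
    · rw [hsnoc]
      have h1 : e ≤ ss α (k j) := by
        have := hΘek j
        nlinarith
      have : (M'':ℝ) * e ≤ M'' * ss α (k j) := mul_le_mul_of_nonneg_left h1 (by positivity)
      linarith

end Pool.Agent.Q67.BC
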